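import Pool.Agent.Helper36.AM.St

/-! SAT (all weights one): the only input from the row PR. `quo` = quotient of a point by a direction; `PRQ` = the proper
quotients by directions which are functions of a label without information are full. -/

set_option autoImplicit false

namespace Pool.Agent.Helper67.SAT

open Finset Filter Topology Pool.Agent.Helper69.RK Pool.Agent.Helper31.EC Pool.Agent.Helper31.EC.Sp
open Pool.Agent.Helper40.EL Pool.Agent.Helper89.LX Pool.Agent.Helper84.MT Pool.Agent.Helper36.AM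

noncomputable section

/-- the quotient of the point `Q` by the direction `u`, `u j = 1` (the coordinate `j` of the value is `0`) -/
def quo {N : ℕ} (Q u : Fin N → ℝ) (j : Fin N) : Fin N → ℝ := fun i => Q i - u i * Q j

/-- PROPER QUOTIENTS ARE FULL: system with trivial labels at the window `0` and full hull; a label without information,
a direction which is a literal function of the label -/
def PRQ (M : ℕ) : Prop := ∀ (S : Sp) (g r : ℕ) (s : MSys S (M + 1) (lin g) (Fin r)), s.Con 0 →
  volO s 0 = (M : ℝ) + 1 → ∀ l : Lab S, Nul S (fun k => (l k).info) → ∀ (j : Fin (M + 1))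
  (u : ∀ k, (l k).T.Ω → Fin (M + 1) → ℝ),
  (∀ᶠ k in UF, ∀ ω ω', (l k).T.μ ω ≠ 0 → (l k).T.μ ω' ≠ 0 → (l k).T.Z ω ω' → (l k).V ω ω' → u k ω = u k ω') →
  (∀ᶠ k in UF, ∀ ω, (l k).T.μ ω ≠ 0 → u k ω j = 1 ∧ ∀ i, |u k ω i| ≤ 2) →
  ∀ ε : ℝ, 0 < ε → ∀ᶠ k in UF, ((M : ℝ) - ε) * (S.F k).n ≤
    h (fc (Setoid.ker fun ω => cell (S.dl 1 k) (quo (s.Q.v k ((l k).p.π ω)) (u k ω) j)) : FL (l k).T) (l k).v

end

end Pool.Agent.Helper67.SAT
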