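import Pool.Agent.Helper67.SAT.Top
import Pool.Agent.Helper24.PR.Prq

namespace Pool.Agent.Helper67.SAT

/-- Row SAT, without hypotheses. -/
theorem st_sat_full (M : ℕ) : Helper13.AM.ST_SAT M :=
  st_sat M (Helper24.PR.st_PRQ M)

end Pool.Agent.Helper67.SAT
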