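import Pool.Agent.Helper67.SAT.Ex

/-! SAT: all weights one, so all leaves are affine. Slopes; deficiency; the slopes are not all small. -/

set_option autoImplicit false

namespace Pool.Agent.Helper67.SAT

open Finset Filter Topology Pool.Agent.Helper69.RK Pool.Agent.Helper31.EC Pool.Agent.Helper31.EC.Sp
open Pool.Agent.Helper40.EL Pool.Agent.Helper89.LX Pool.Agent.Helper84.MT Pool.Agent.Helper36.AM

noncomputable section

theorem sum_le_one {e : ℕ} (a : Fin e →₀ ℕ) (ha : ∑ i, a i ≤ 1) : a = 0 ∨ ∃ i, a = Finsupp.single i 1 := by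
  classical
  by_cases h0 : a = 0
  · exact Or.inl h0
  · right
    obtain ⟨i, hi⟩ : ∃ i, a i ≠ 0 := by
      by_contra hc
      push Not at hc
      exact h0 (Finsupp.ext hc)
    refine ⟨i, Finsupp.ext fun j => ?_⟩
    by_cases hj : i = j
    · subst hj
      rw [Finsupp.single_eq_same]
      have h1 := Finset.single_le_sum (f := fun i => a i) (fun _ _ => Nat.zero_le _) (Finset.mem_univ i)
      have h2 : a i ≤ 1 := h1.trans ha
      omega
    · rw [Finsupp.single_eq_of_ne (Ne.symm hj)]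
      have h1 : a i + a j ≤ ∑ i, a i := by
        rw [← Finset.sum_pair hj]
        exact Finset.sum_le_sum_of_subset (Finset.subset_univ _)
      omega

/-- polynomials of degree at most one are affine -/
theorem eval_aff {e : ℕ} (P : MvPolynomial (Fin e) ℝ) (hP : P.totalDegree ≤ 1) (y : Fin e → ℝ) :
    MvPolynomial.eval y P = MvPolynomial.eval 0 P +
      ∑ p, (MvPolynomial.eval (Pi.single p 1) P - MvPolynomial.eval 0 P) * y p := by
  classical
  have h1 : ∀ a ∈ P.support, MvPolynomial.eval y (MvPolynomial.monomial a (P.coeff a)) =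
      MvPolynomial.eval 0 (MvPolynomial.monomial a (P.coeff a)) +
      ∑ p, (MvPolynomial.eval (Pi.single p 1) (MvPolynomial.monomial a (P.coeff a)) -
        MvPolynomial.eval 0 (MvPolynomial.monomial a (P.coeff a))) * y p := by
    intro a ha
    have h2 : a.sum (fun _ n => n) ≤ P.totalDegree := MvPolynomial.le_totalDegree ha
    have h3 : a.sum (fun _ n => n) = ∑ i, a i := Finsupp.sum_fintype _ _ (fun _ => rfl)
    rcases sum_le_one a (by omega) with h4 | ⟨i, h4⟩
    · rw [h4]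
      simp
    · rw [h4]
      simp only [MvPolynomial.eval_monomial]
      have h5 : ∀ z : Fin e → ℝ, (Finsupp.single i 1 : Fin e →₀ ℕ).prod (fun n k => z n ^ k) = z i := by
        intro z
        rw [Finsupp.prod_single_index (by simp), pow_one]
      simp only [h5, Pi.zero_apply, mul_zero, sub_zero, zero_add]
      rw [Finset.sum_eq_single i]
      · rw [Pi.single_eq_same, mul_one]
      · intro p _ hp
        rw [Pi.single_eq_of_ne (Ne.symm hp), mul_zero, zero_mul]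
      · intro h6
        exact absurd (Finset.mem_univ _) h6
  have h6 : ∀ z, MvPolynomial.eval z P = ∑ a ∈ P.support, MvPolynomial.eval z (MvPolynomial.monomial a (P.coeff a)) := by
    intro z
    conv_lhs => rw [P.as_sum]
    rw [map_sum]
  rw [h6 y, h6 0, Finset.sum_congr rfl h1, Finset.sum_add_distrib, Finset.sum_comm]
  congr 1
  apply Finset.sum_congr rfl
  intro p _
  rw [← Finset.sum_mul, Finset.sum_sub_distrib, ← h6]

variable {S T : Sp} {M : ℕ} {E : ℕ → ℕ}

/-- slope of the coordinate `j` in the direction `p` -/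
def sl {Q : S.VV M} (l : Leaf S Q E) (k : ℕ) (ω : (S.F k).Ω) (j : Fin M) (p : Fin l.e) : ℝ :=
  l.F k ω (Pi.single p 1) j - l.F k ω 0 j

/-- the leaf is an affine map -/
def Aff {Q : S.VV M} (l : Leaf S Q E) : Prop := ∀ᶠ k in UF, ∀ ω, (S.F k).μ ω ≠ 0 → ∀ y j,
  l.F k ω y j = l.F k ω 0 j + ∑ p, sl l k ω j p * y p

theorem aff_of_poly {Q : S.VV M} (l : Leaf S Q E) (G : ∀ k, (S.F k).Ω → Fin M → MvPolynomial (Fin l.e) ℝ)
    (h1 : ∀ᶠ k in UF, ∀ ω, (S.F k).μ ω ≠ 0 → ∀ y j, l.F k ω y j = MvPolynomial.eval y (G k ω j))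
    (h2 : ∀ k ω j, (G k ω j).totalDegree ≤ 1) : Aff l := by
  filter_upwards [h1] with k hk ω hω y j
  unfold sl
  simp only [hk ω hω]
  exact eval_aff _ (h2 k ω j) y

theorem sl_bd {Q : S.VV M} {l : Leaf S Q E} (ha : Aff l) : ∃ K : ℕ → ℝ, S.Sub K ∧ ∀ᶠ k in UF, ∀ ω,
    (S.F k).μ ω ≠ 0 → ∀ j p, |sl l k ω j p| ≤ K k := by
  obtain ⟨K, hK, hb⟩ := l.bd
  refine ⟨fun k => K k + K k, hK.add hK, ?_⟩
  filter_upwards [hb, ha] with k h1 h2 ω hω j p
  classical
  have a1 := h1 ω hω (l.Y.v k ω) (fun i => by rw [sub_self, abs_zero]; exact zero_le_one) j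
  have a2 := h1 ω hω (l.Y.v k ω + Pi.single p 1) (fun i => by
    rw [Pi.add_apply, add_sub_cancel_left]
    by_cases hi : i = p
    · rw [hi, Pi.single_eq_same, abs_one]
    · rw [Pi.single_eq_of_ne hi, abs_zero]
      exact zero_le_one) j
  have e1 : sl l k ω j p = l.F k ω (l.Y.v k ω + Pi.single p 1) j - l.F k ω (l.Y.v k ω) j := by
    rw [h2 ω hω (l.Y.v k ω + Pi.single p 1) j, h2 ω hω (l.Y.v k ω) j, add_sub_add_left_eq_sub,
      ← Finset.sum_sub_distrib]
    rw [Finset.sum_eq_single p]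
    · rw [Pi.add_apply, Pi.single_eq_same]
      ring
    · intro q _ hq
      rw [Pi.add_apply, Pi.single_eq_of_ne hq]
      ring
    · intro h6
      exact absurd (Finset.mem_univ _) h6
  rw [e1]
  refine (abs_sub _ _).trans ?_
  linarith

/-- difference of two values of an affine leaf -/
theorem aff_diff {Q : S.VV M} (l : Leaf S Q E) (k : ℕ) (ω : (S.F k).Ω) (j : Fin M)
    (h : ∀ y, l.F k ω y j = l.F k ω 0 j + ∑ p, sl l k ω j p * y p) (y z : Fin l.e → ℝ) :
    l.F k ω y j - l.F k ω z j = ∑ p, sl l k ω j p * (y p - z p) := by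
  rw [h y, h z, add_sub_add_left_eq_sub, ← Finset.sum_sub_distrib]
  apply Finset.sum_congr rfl
  intro p _
  ring

/-- trivial labels are maximal at an exactly connected window -/
theorem kap_triv {ι : Type} {s : MSys S M E ι} {c : ℝ} (h : s.Con c) : s.IsKap c (fun k => FLab.triv (S.F k)) := by
  refine ⟨Lab.DMf_triv _, fun l' hl' => ?_⟩
  rw [Lab.Conf.info h hl', Lab.Conf.info h (Lab.DMf_triv _)]

theorem cel2_le (Q : S.VV M) (z : Fin M) (b : ℝ) (k : ℕ) :
    fc (Setoid.ker (Q.cellv b k)) ≤ cel2 Q z b b k := fc_mono inf_le_left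

theorem cel2_ge (Q : S.VV M) (z : Fin M) (b : ℝ) (k : ℕ) :
    cel2 Q z b b k ≤ fc (Setoid.ker (Q.cellv b k)) := fc_mono (by
  intro ω ω' h
  have h1 : Q.cellv b k ω = Q.cellv b k ω' := h
  refine ⟨h, ?_⟩
  show (fun j : {j : Fin M // j ≠ z} => Q.cellv b k ω j.1) = fun j => Q.cellv b k ω' j.1
  rw [h1])

theorem triv_h {F : FSp} (x : FL F) : h ((FLab.triv F).p.map x) (FLab.triv F).v = H x := by
  have h1 : (FLab.triv F).v = ⊥ := rfl
  have h2 : H ((FLab.triv F).p.map x) = H x := (FLab.triv F).p.H_map x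
  rw [h1, h_bot, h2]

theorem triv_h0 {F : FSp} (A : Setoid F.Ω) : h (fc A : FL (FLab.triv F).T) (FLab.triv F).v = H (fc A) := triv_h (fc A)

theorem triv_h2 {F : FSp} (A : Setoid F.Ω) (x : FL F) :
    h (fc A : FL (FLab.triv F).T) ((FLab.triv F).v ⊔ (FLab.triv F).p.map x) = h (fc A) x := by
  have h1 : (FLab.triv F).v = ⊥ := rfl
  rw [h1, bot_sup_eq]
  exact (FLab.triv F).p.h_map (fc A) x

end

section

variable {M g r : ℕ} {Cl : MCl (M + 1)} {w : Fin (M + 1) → ℝ} {ρ : ℝ}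
  {TT : ∀ S : Sp, MSys S (M + 1) (lin g) (Fin r) → Prop}

/-- numbers of the unit box -/
theorem num0 (hT : Hom M Cl g r w ρ TT) {S : Sp} {s : MSys S (M + 1) (lin g) (Fin r)} (hs : TT S s) {b : ℝ}
    (hb : 0 ≤ b) (hb1 : b ≤ 1) : Tendsto (fun k => H (fc (Setoid.ker (s.Q.cellv b k)) : FL (S.F k)) / (S.F k).n) UF
      (𝓝 (((M : ℝ) + 1 - ρ) * b)) := by
  have h1 := hT.num S s hs 0 b b le_rfl (by rw [mul_zero]; exact zero_lt_one) (by rw [mul_zero]; exact hb) le_rfl hb1
    (fun k => FLab.triv (S.F k))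
    (kap_triv (hT.con S s hs))
  have e1 : ∑ j : Fin M, (b - w j.castSucc * 0) + (1 - ρ) * (b - w (Fin.last M) * 0) = ((M : ℝ) + 1 - ρ) * b := by
    simp only [mul_zero, sub_zero, Finset.sum_const, Finset.card_univ, Fintype.card_fin, nsmul_eq_mul]
    ring
  rw [e1] at h1
  refine h1.congr fun k => ?_
  rw [triv_h]
  congr 1
  exact le_antisymm (H_mono (cel2_ge _ _ _ _)) (H_mono (cel2_le _ _ _ _))

/-- DEFICIENCY -/
theorem defic (hT : Hom M Cl g r w ρ TT) (S : Sp) (s : MSys S (M + 1) (lin g) (Fin r)) (hs : TT S s) :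
    ∀ᶠ k in UF, H (fc (cl1 (S.F k) (s.Q.v k)) : FL (S.F k)) ≤ ((M : ℝ) + 1 - ρ / 2) * (S.F k).n := by
  have h1 := num0 hT hs zero_le_one le_rfl
  rw [mul_one] at h1
  have hρ := hT.rho
  filter_upwards [h1.eventually (gt_mem_nhds (show (M : ℝ) + 1 - ρ < (M : ℝ) + 1 - ρ / 2 by linarith))] with k hk
  rw [div_lt_iff₀ (S.F k).pos] at hk
  exact hk.le

theorem aff_of_hom (hT : Hom M Cl g r w ρ TT) (hw : w (Fin.last M) ≤ 1) {S : Sp}
    {s : MSys S (M + 1) (lin g) (Fin r)} (hs : TT S s) (i : Fin r) : Aff (s.lf i) := by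
  obtain ⟨G, h1, h2⟩ := hT.wd S s hs i
  refine aff_of_poly _ G h1 fun k ω j => ?_
  have h3 := (h2 k ω j).trans ((hT.mono (Fin.le_last j)).trans hw)
  exact_mod_cast h3

/-- THE SLOPES ARE NOT ALL SMALL -/
theorem not_small (hT : Hom M Cl g r w ρ TT) (hM : 1 ≤ M) (hw : w (Fin.last M) ≤ 1) {S : Sp}
    {s : MSys S (M + 1) (lin g) (Fin r)} (hs : TT S s) {δ : ℝ} (hδ : 0 < δ) (hδ1 : δ ≤ 1)
    (h : ∀ᶠ k in UF, ∀ ω, (S.F k).μ ω ≠ 0 → ∀ i j p, |sl (s.lf i) k ω j p| ≤ S.dl δ k) : False := by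
  have hK := kap_triv (hT.con S s hs)
  have h1 := hK.fun_small (fun k => Setoid.ker (s.Q.cellv δ k)) (by
    intro i
    have e1 : ∀ x : Part S, PLe (fun k => fc (Setoid.ker (s.Q.cellv δ k))) x →
        Nul S (fun k => Pool.Agent.Helper31.EC.h (fc (Setoid.ker (s.Q.cellv δ k)) : FL (FLab.triv (S.F k)).T)
          ((FLab.triv (S.F k)).v ⊔ (FLab.triv (S.F k)).p.map (x k))) := by
      intro x hx
      exact hx.congr fun k => (congrArg (· / (S.F k).n) (triv_h2 (Setoid.ker (s.Q.cellv δ k)) (x k))).symm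
    apply e1
    cases i with
    | none => exact dg_pcd s.Q hδ1
    | some i =>
      obtain ⟨K1, hK1, hp⟩ := (s.lf i).pt
      obtain ⟨K2, hK2, hY⟩ := (s.lf i).Y.bd
      refine PLe_cell s.Q δ (fun k => (s.lf i).La k ⊓ Setoid.ker ((s.lf i).Y.cellv 0 k))
        (fun k => K1 k + K1 k + (s.lf i).e * (K2 k + K2 k)) ((hK1.add hK1).add
          ((S.Sub_const (Nat.cast_nonneg _)).mul (hK2.add hK2))) ?_
      filter_upwards [hp, hY, h, (s.lf i).fn, aff_of_hom hT hw hs i, hK1.1] with k a1 a2 a3 a4 a5 a6 ω ω' b1 b2 b3 b4 j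
      have hF := a4 ω ω' b1 b2 b3 b4.1
      have c1 := a1 ω b1 j
      have c2 := a1 ω' b2 j
      rw [← hF] at c2
      have c3 := aff_diff (s.lf i) k ω j (fun y => a5 ω b1 y j) ((s.lf i).Y.v k ω) ((s.lf i).Y.v k ω')
      have hd := S.dl_pos δ k
      have c4 : |∑ p, sl (s.lf i) k ω j p * ((s.lf i).Y.v k ω p - (s.lf i).Y.v k ω' p)| ≤
          (s.lf i).e * (K2 k + K2 k) * S.dl δ k := by
        refine (Finset.abs_sum_le_sum_abs _ _).trans ?_
        have c5 : ∀ p ∈ (Finset.univ : Finset (Fin (s.lf i).e)),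
            |sl (s.lf i) k ω j p * ((s.lf i).Y.v k ω p - (s.lf i).Y.v k ω' p)| ≤ (K2 k + K2 k) * S.dl δ k := by
          intro p _
          rw [abs_mul, mul_comm]
          have d1 := a2 ω b1 p
          have d2 := a2 ω' b2 p
          have d3 : |(s.lf i).Y.v k ω p - (s.lf i).Y.v k ω' p| ≤ K2 k + K2 k := (abs_sub _ _).trans (add_le_add d1 d2)
          exact mul_le_mul d3 (a3 ω b1 i j p) (abs_nonneg _) ((abs_nonneg _).trans d3)
        refine (Finset.sum_le_sum c5).trans (le_of_eq ?_)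
        rw [Finset.sum_const, Finset.card_univ, Fintype.card_fin, nsmul_eq_mul]
        ring
      have e4 : s.Q.v k ω j - s.Q.v k ω' j = (s.Q.v k ω j - (s.lf i).F k ω ((s.lf i).Y.v k ω) j) +
          ((s.lf i).F k ω ((s.lf i).Y.v k ω) j - (s.lf i).F k ω ((s.lf i).Y.v k ω') j) +
          -(s.Q.v k ω' j - (s.lf i).F k ω ((s.lf i).Y.v k ω') j) := by ring
      rw [e4]
      refine (abs_add_three _ _ _).trans ?_
      rw [abs_neg, c3]
      have c6 : K1 k * S.dl 1 k ≤ K1 k * S.dl δ k := mul_le_mul_of_nonneg_left (S.dl_anti hδ1 k) a6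
      show _ ≤ (K1 k + K1 k + (s.lf i).e * (K2 k + K2 k)) * S.dl δ k
      have c7 := c1.trans c6
      have c8 := c2.trans c6
      linarith)
  have h2 := num0 hT hs hδ.le hδ1
  have h3 : Tendsto (fun k => H (fc (Setoid.ker (s.Q.cellv δ k)) : FL (S.F k)) / (S.F k).n) UF (𝓝 0) := by
    exact h1.1.congr fun k => congrArg (· / (S.F k).n) (triv_h0 (Setoid.ker (s.Q.cellv δ k)))
  have h4 := tendsto_nhds_unique h2 h3
  have h5 := hT.rho1
  have h6 : (1 : ℝ) ≤ M := by exact_mod_cast hM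
  have h7 : 0 < ((M : ℝ) + 1 - ρ) * δ := mul_pos (by linarith) hδ
  linarith

end

end Pool.Agent.Helper67.SAT
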