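import Pool.Agent.Helper67.SAT.Aff

/-! SAT: on an event of positive probability one slope is literally large and maximal. -/

set_option autoImplicit false

namespace Pool.Agent.Helper67.SAT

open Finset Filter Topology Pool.Agent.Helper69.RK Pool.Agent.Helper31.EC Pool.Agent.Helper31.EC.Sp
open Pool.Agent.Helper40.EL Pool.Agent.Helper89.LX Pool.Agent.Helper84.MT Pool.Agent.Helper36.AM

noncomputable section

/-- the support of the law given an event of the space itself -/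
theorem im_id_supp {S : Sp} (E : ∀ k, (S.F k).Ω → Prop) (k : ℕ) (hp : (S.F k).pb (E k) ≠ 0) (ω : (S.F k).Ω)
    (h : ((Sp.im (Pj.id S) E).F k).μ ω ≠ 0) : (S.F k).μ ω ≠ 0 ∧ E k ω := by
  have h1 : push ((Pj.id S).π k) ((S.F k).restμ (E k)) ω ≠ 0 := h
  rw [push_ind] at h1
  obtain ⟨ω', _, h2⟩ := Finset.exists_ne_zero_of_sum_ne_zero h1
  by_cases h3 : (Pj.id S).π k ω' = ω
  · have h4 : ω' = ω := h3
    rw [e1_ind_pos h3, one_mul, h4] at h2
    have h5 := (S.F k).rest_supp (E k) ω h2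
    exact ⟨h5.1, h5.2 hp⟩
  · rw [e1_ind_neg h3, zero_mul] at h2
    exact absurd rfl h2

theorem ev_pos {S : Sp} {E : ∀ k, (S.F k).Ω → Prop} (hE : 0 < ul (S.pr E)) : ∀ᶠ k in UF, (S.F k).pb (E k) ≠ 0 := by
  filter_upwards [eventually_gt_of_lt_ul (UB_pr E) hE] with k hk
  exact (ne_of_gt hk)

/-- one of finitely many events which cover the space has positive probability -/
theorem exists_event {S : Sp} {ι : Type} [Fintype ι] (P : ι → ∀ k, (S.F k).Ω → Prop)
    (h : ∀ k ω, ∃ i, P i k ω) : ∃ i, 0 < ul (S.pr (P i)) := by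
  by_contra hc
  push Not at hc
  have h0 : ∀ i, Tendsto (S.pr (P i)) UF (𝓝 0) := by
    intro i
    have h1 := ul_tendsto (UB_pr (P i))
    have h2 : ul (S.pr (P i)) = 0 := le_antisymm (hc i) (const_le_ul (UB_pr (P i))
      (Eventually.of_forall fun k => pr_nonneg (P i) k))
    rwa [h2] at h1
  have h1 : Tendsto (fun k => ∑ i, S.pr (P i) k) UF (𝓝 0) := by
    have := tendsto_finsetSum (Finset.univ : Finset ι) fun i _ => h0 i
    simpa using this
  have h2 : ∀ k, 1 ≤ ∑ i, S.pr (P i) k := by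
    intro k
    have h3 := (S.F k).pb_all_ge Finset.univ (fun i ω => ¬ P i k ω)
    have h4 : (S.F k).pb (fun ω => ∀ i ∈ (Finset.univ : Finset ι), ¬ P i k ω) = 0 := by
      have h5 := (S.F k).pb_mono (E := fun ω => ∀ i ∈ (Finset.univ : Finset ι), ¬ P i k ω) (E' := fun _ => False)
        (fun ω _ hω => by
          obtain ⟨i, hi⟩ := h k ω
          exact hω i (Finset.mem_univ _) hi)
      have h6 : (S.F k).pb (fun _ => False) = 0 := by
        unfold FSp.pb mass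
        apply Finset.sum_eq_zero
        intro ω _
        exact res_neg _ _ _ (fun h => h)
      have h7 := (S.F k).pb_nonneg (fun ω => ∀ i ∈ (Finset.univ : Finset ι), ¬ P i k ω)
      linarith
    rw [h4] at h3
    have h8 : ∀ i, 1 - (S.F k).pb (fun ω => ¬ P i k ω) = S.pr (P i) k := by
      intro i
      have := (S.F k).pb_add_compl (P i k)
      show _ = (S.F k).pb (P i k)
      linarith
    simp only [h8] at h3
    linarith
  have h3 := le_of_tendsto_of_tendsto tendsto_const_nhds h1 (Eventually.of_forall h2)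
  linarith

variable {M g r : ℕ} {Cl : MCl (M + 1)} {w : Fin (M + 1) → ℝ} {ρ : ℝ}
  {TT : ∀ S : Sp, MSys S (M + 1) (lin g) (Fin r) → Prop}

/-- the slope of the coordinate `j` in the direction `p` is large and maximal -/
def Big {S : Sp} {M : ℕ} {E : ℕ → ℕ} {Q : S.VV M} (l : Leaf S Q E) (j : Fin M) (p : Fin l.e) (δ : ℝ) (k : ℕ)
    (ω : (S.F k).Ω) : Prop := S.dl δ k ≤ |sl l k ω j p| ∧ ∀ j', |sl l k ω j' p| ≤ |sl l k ω j p|

/-- the events -/
def evs {S : Sp} (s : MSys S (M + 1) (lin g) (Fin r)) (δ : ℝ) (x : Option (Σ i : Fin r, Fin (M + 1) × Fin (s.lf i).e))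
    (k : ℕ) (ω : (S.F k).Ω) : Prop :=
  match x with
  | none => ∀ i j p, |sl (s.lf i) k ω j p| ≤ S.dl δ k
  | some x => Big (s.lf x.1) x.2.1 x.2.2 δ k ω

theorem evs_cover {S : Sp} (s : MSys S (M + 1) (lin g) (Fin r)) (δ : ℝ) (k : ℕ) (ω : (S.F k).Ω) :
    ∃ x, evs s δ x k ω := by
  by_cases h : ∀ i j p, |sl (s.lf i) k ω j p| ≤ S.dl δ k
  · exact ⟨none, h⟩
  · push Not at h
    obtain ⟨i, j, p, h1⟩ := h
    obtain ⟨j0, hj0⟩ := Finite.exists_max fun j => |sl (s.lf i) k ω j p|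
    exact ⟨some ⟨i, j0, p⟩, h1.le.trans (hj0 j), hj0⟩

/-- THE SELECTED MEMBER -/
theorem exists_big (hT : Hom M Cl g r w ρ TT) (hM : 1 ≤ M) (hw : w (Fin.last M) ≤ 1) {δ : ℝ} (hδ : 0 < δ)
    (hδ1 : δ ≤ 1) : ∃ (S : Sp) (s : MSys S (M + 1) (lin g) (Fin r)) (i : Fin r) (j : Fin (M + 1))
    (p : Fin (s.lf i).e), TT S s ∧ ∀ᶠ k in UF, ∀ ω, (S.F k).μ ω ≠ 0 → Big (s.lf i) j p δ k ω := by
  obtain ⟨S, s, hs⟩ := hT.ne
  obtain ⟨x, hx⟩ := exists_event (evs s δ) (evs_cover s δ)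
  have h1 : ∀ᶠ k in UF, ∀ ω : (S.F k).Ω, ((Sp.im (Pj.id S) (evs s δ x)).F k).μ ω ≠ 0 → evs s δ x k ω := by
    filter_upwards [ev_pos hx] with k hk ω hω
    exact (im_id_supp (S := S) (evs s δ x) k hk ω hω).2
  have h2 := hT.im S s hs S (Pj.id S) _ hx
  cases x with
  | none =>
    exfalso
    exact not_small hT hM hw h2 hδ hδ1 h1
  | some x => exact ⟨_, s.im (Pj.id S) _ hx, x.1, x.2.1, x.2.2, h2, h1⟩

end

end Pool.Agent.Helper67.SAT
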