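import Pool.Agent.Helper67.SAT.Fin

/-! SAT: over a deficient system with trivial labels and full hull there are no exact data (a direction independent of the
point and lines in this direction along which the point moves with unit speed); uniform version for classes closed
under diagonals. -/

set_option autoImplicit false

namespace Pool.Agent.Helper67.SAT

open Finset Filter Topology Pool.Agent.Helper69.RK Pool.Agent.Helper31.EC Pool.Agent.Helper31.EC.Sp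
open Pool.Agent.Helper40.EL Pool.Agent.Helper89.LX Pool.Agent.Helper84.MT Pool.Agent.Helper36.AM
open Pool.Agent.Helper49.MD (dlF lft DiagCl ob KM unif_ex FMs)

noncomputable section

theorem exists_const {N : ℕ} (f : ℕ → Fin N) : ∃ j, ∀ᶠ k in UF, f k = j := by
  by_contra hn
  have h1 : ∀ j, ∀ᶠ k in UF, ¬ f k = j := fun j => UF_not fun h => hn ⟨j, h⟩
  have h2 : ∀ᶠ k in UF, ∀ j, ¬ f k = j := by
    rw [eventually_all]
    exact h1
  obtain ⟨k, hk⟩ := h2.exists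
  exact hk (f k) rfl

theorem sub_log {S : Sp} {K : ℕ → ℝ} (hK : S.Sub K) (ε : ℝ) (hε : 0 < ε) :
    ∀ᶠ k in UF, Real.logb 2 (K k + 2) ≤ ε * (S.F k).n := by
  filter_upwards [hK.2.eventually (gt_mem_nhds hε)] with k hk
  rw [div_lt_iff₀ (S.F k).pos] at hk
  exact hk.le

instance (F : FSp) (N : ℕ) : Inhabited (Dat F (N + 1)) := ⟨⟨F, (FLab.triv F).p, rfl, fun _ _ => 0, ⊤, 0⟩⟩

theorem nul_of_le {S : Sp} {f : ℕ → ℝ} (h0 : ∀ k, 0 ≤ f k) (h1 : ∀ δ : ℝ, 0 < δ → ∀ᶠ k in UF, f k ≤ δ * (S.F k).n) :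
    Nul S f := by
  unfold Nul
  rw [Metric.tendsto_nhds]
  intro ε hε
  filter_upwards [h1 (ε / 2) (by linarith)] with k hk
  have hn := (S.F k).pos
  rw [Real.dist_eq, sub_zero, abs_of_nonneg (div_nonneg (h0 k) hn.le), div_lt_iff₀ hn]
  nlinarith

variable {S : Sp} {M g r : ℕ}

/-- NO EXACT DATA -/
theorem no_exact (hP : PRQ M) (s : MSys S (M + 1) (lin g) (Fin r)) (hc : s.Con 0) (hv : volO s 0 = (M : ℝ) + 1) {θ : ℝ}
    (hθ : 0 < θ) (hd : ∀ᶠ k in UF, H (fc (cl1 (S.F k) (s.Q.v k)) : FL (S.F k)) ≤ ((M : ℝ) + 1 - θ) * (S.F k).n)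
    (z : ∀ k, Dat (S.F k) (M + 1)) (hz : ∀ δ : ℝ, 0 < δ → ∀ᶠ k in UF, (z k).Ok (s.Q.v k) δ) : False := by
  obtain ⟨j, hj⟩ := exists_const fun k => (z k).j
  obtain ⟨K, hK, hKb⟩ := s.Q.bd
  have h1 := hP S g r s hc hv (fun k => (z k).lab (s.Q.v k)) (nul_of_le (fun k => FLab.info_nonneg _) (by
    intro δ hδ
    filter_upwards [hz δ hδ] with k hk
    exact ((z k).lab_info (s.Q.v k)).trans hk.ind)) j (fun k => (z k).uu (s.Q.v k))
    (Eventually.of_forall fun k w w' _ _ _ hV => (z k).uu_fn (s.Q.v k) w w' hV) (by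
    filter_upwards [hz 1 one_pos, hj] with k hk hjk w hw
    have h2 := (z k).uu_bd (s.Q.v k) hk w hw
    rw [hjk] at h2
    exact h2) (θ / 8) (by linarith)
  have l1 := sub_log ((hK.add hK).add (S.Sub_const (show (0 : ℝ) ≤ 7 by norm_num))) (θ / 8 / (M + 1)) (by positivity)
  have l2 := sub_log (hK.add (S.Sub_const (show (0 : ℝ) ≤ 2 by norm_num))) (θ / 8 / (M + 1)) (by positivity)
  have h3 : ∀ᶠ k in UF, False := by
    filter_upwards [h1, hj, l1, l2, hz (θ / 24) (by linarith), hd, hKb, hK.1] with k a1 a2 a3 a4 a5 a6 a7 a8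
    have b1 := (z k).quo_le (s.Q.v k) a8 a7 a5
    have b2 := (z k).H_ge (s.Q.v k) a8 a7 a5
    rw [← a2] at a1
    have a1' : ((M : ℝ) - θ / 8) * (S.F k).n ≤ h (fc (cl1 (S.F k) fun w : ((z k).lab (s.Q.v k)).T.Ω =>
      quo (s.Q.v k (((z k).lab (s.Q.v k)).p.π w)) ((z k).uu (s.Q.v k) w) (z k).j)) ((z k).lab (s.Q.v k)).v := a1
    have hn := (S.F k).pos
    have hM : (0 : ℝ) < (M : ℝ) + 1 := by positivity
    have c1 : ((M + 1 : ℕ) : ℝ) * Real.logb 2 (2 * K k + 9) ≤ θ / 8 * (S.F k).n := by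
      have e1 : K k + K k + 7 + 2 = 2 * K k + 9 := by ring
      rw [e1] at a3
      have := mul_le_mul_of_nonneg_left a3 hM.le
      rw [← mul_assoc, mul_div_cancel₀ _ hM.ne'] at this
      push_cast
      exact this
    have c2 : ((M + 1 : ℕ) : ℝ) * Real.logb 2 (K k + 4) ≤ θ / 8 * (S.F k).n := by
      have e1 : K k + 2 + 2 = K k + 4 := by ring
      rw [e1] at a4
      have := mul_le_mul_of_nonneg_left a4 hM.le
      rw [← mul_assoc, mul_div_cancel₀ _ hM.ne'] at this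
      push_cast
      exact this
    nlinarith
  exact h3.exists.choose_spec

/-- UNIFORM VERSION: in a class closed under diagonals there are no data correct up to some `δ > 0` -/
theorem unif (hP : PRQ M) {TT : ∀ S : Sp, MSys S (M + 1) (lin g) (Fin r) → Prop} (hdg : DiagCl (lft TT))
    (hcon : ∀ S s, TT S s → s.Con 0) (hvol : ∀ S s, TT S s → volO s 0 = (M : ℝ) + 1) {θ : ℝ} (hθ : 0 < θ)
    (hd : ∀ S s, TT S s → ∀ᶠ k in UF, H (fc (cl1 (S.F k) (s.Q.v k)) : FL (S.F k)) ≤ ((M : ℝ) + 1 - θ) * (S.F k).n) :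
    ∃ δ : ℝ, 0 < δ ∧ ∀ S s, TT S s → ∀ᶠ k in UF, ∀ y : Dat (S.F k) (M + 1), ¬ y.Ok (s.Q.v k) δ := by
  obtain ⟨δ, hδ, h1⟩ := unif_ex (K := KM (M + 1) (Fin r)) hdg (X := fun F _ => Dat F (M + 1))
    (fun F x y δ => y.Ok (x : FMs F.Ω (M + 1) (Fin r)).Q δ) (fun F x y δ δ' h hy => Dat.Ok.mono h hy) (by
    rintro S x ⟨s, hs, hT⟩ ⟨y, hy⟩
    refine no_exact hP s (hcon S s hT) (hvol S s hT) hθ (hd S s hT) (fun k => (y k).getD default) fun δ hδ => ?_
    filter_upwards [hy δ hδ, hs] with k hk hsk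
    obtain ⟨z, hz, hok⟩ := hk
    rw [hz]
    show z.Ok (s.Q.v k) δ
    rw [← hsk] at hok
    exact hok)
  refine ⟨δ, hδ, fun S s hs => ?_⟩
  exact h1 S (ob s) ⟨s, Eventually.of_forall fun _ => rfl, hs⟩

end

end Pool.Agent.Helper67.SAT
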