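import Pool.Agent.Helper67.SAT.St
import Pool.Agent.Helper52.KP.AgrF

/-! SAT, finite part. Data over a system: an extension with a direction `U` and a line `La` in the direction `U`, along which
the point moves with unit speed; the direction is (almost) independent of the point. -/

set_option autoImplicit false

namespace Pool.Agent.Helper67.SAT

open Finset Filter Topology Pool.Agent.Helper69.RK Pool.Agent.Helper31.EC Pool.Agent.Helper31.EC.Sp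
open Pool.Agent.Helper40.EL Pool.Agent.Helper89.LX Pool.Agent.Helper84.MT Pool.Agent.Helper36.AM
open Pool.Agent.Helper49.MD (dlF)

noncomputable section

/-- cells of level one -/
def cl1 (F : FSp) {Ω : Type} {N : ℕ} (X : Ω → Fin N → ℝ) : Setoid Ω := Setoid.ker fun ω => cell (dlF F 1) (X ω)

/-- the coordinate `j` as a vector with one coordinate -/
def co {Ω : Type} {N : ℕ} (X : Ω → Fin N → ℝ) (j : Fin N) : Ω → Fin 1 → ℝ := fun ω _ => X ω j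

theorem dlF_pos (F : FSp) (r : ℝ) : 0 < dlF F r := Real.rpow_pos_of_pos (by norm_num) _

/-- entropy of cells by the oscillation -/
theorem h_cell_osc {F : FSp} {Ω : FSp} {N : ℕ} (X : Ω.Ω → Fin N → ℝ) (B : Setoid Ω.Ω) (K : ℝ) (hK : 0 ≤ K)
    (hh : ∀ ω ω', Ω.μ ω ≠ 0 → Ω.μ ω' ≠ 0 → Ω.Z ω ω' → B ω ω' → ∀ i, |X ω i - X ω' i| ≤ K * dlF F 1) :
    h (fc (cl1 F X)) (fc B) ≤ N * Real.logb 2 (K + 2) := by
  rw [h_fc]
  have h1 := Ω.e_int_le (fun ω => cell (dlF F 1) (X ω)) (B ⊓ Ω.Z) (K + 1) (by linarith) (by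
    intro ω ω' a b c i
    exact floor_diff (dlF_pos F 1) (hh ω ω' a b c.2 c.1 i))
  have e1 : K + 1 + 1 = K + 2 := by ring
  rw [e1] at h1
  exact h1

theorem cell_close {F : FSp} {N : ℕ} {x y : Fin N → ℝ} (hh : cell (dlF F 1) x = cell (dlF F 1) y) (i : Fin N) :
    |x i - y i| ≤ dlF F 1 := abs_sub_le_of_floor_eq (dlF_pos F 1) (congrFun hh i)

/-- data over a space with a point `Q` -/
structure Dat (F : FSp) (N : ℕ) where
  T : FSp
  p : FPj T F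
  hn : T.n = F.n
  U : T.Ω → Fin N → ℝ
  La : Setoid T.Ω
  j : Fin N

/-- the data are correct up to `δ` -/
structure Dat.Ok {F : FSp} {N : ℕ} (Q : F.Ω → Fin N → ℝ) (y : Dat F N) (δ : ℝ) : Prop where
  one : ∀ ω, y.T.μ ω ≠ 0 → y.U ω y.j = 1
  le : ∀ ω, y.T.μ ω ≠ 0 → ∀ i, |y.U ω i| ≤ 1
  quo : h (fc (cl1 F fun ω => quo (Q (y.p.π ω)) (y.U ω) y.j)) (fc y.La) ≤ δ * F.n
  full : (1 - δ) * F.n ≤ h (fc (cl1 F (co (fun ω => Q (y.p.π ω)) y.j))) (fc y.La)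
  dir : h (fc (cl1 F y.U)) (fc y.La) ≤ δ * F.n
  ind : I (fc (cl1 F y.U)) (fc (cl1 F fun ω => Q (y.p.π ω))) ⊥ ≤ δ * F.n

theorem Dat.Ok.mono {F : FSp} {N : ℕ} {Q : F.Ω → Fin N → ℝ} {y : Dat F N} {δ δ' : ℝ} (hd : δ ≤ δ') (hy : y.Ok Q δ) :
    y.Ok Q δ' := by
  have h1 := F.pos
  have h2 : δ * F.n ≤ δ' * F.n := mul_le_mul_of_nonneg_right hd h1.le
  refine ⟨hy.one, hy.le, hy.quo.trans h2, le_trans ?_ hy.full, hy.dir.trans h2, hy.ind.trans h2⟩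
  nlinarith

namespace Dat

variable {F : FSp} {N : ℕ} (Q : F.Ω → Fin N → ℝ) (y : Dat F N)

/-- the partition of the point -/
def pt : Setoid y.T.Ω := cl1 F fun ω => Q (y.p.π ω)

/-- amalgam of two copies over the point -/
def am : FAm y.T y.T := FAm.self y.T (y.pt Q)

/-- THE LABEL: the direction of the second copy -/
def lab : FLab F where
  T := (y.am Q).sp
  p := (y.am Q).p1.comp y.p
  hn := y.hn
  V := Setoid.comap (y.am Q).p2.π (cl1 F y.U)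

open Classical in
/-- the rounded direction -/
def ru (ω : y.T.Ω) (i : Fin N) : ℝ := if i = y.j then 1 else dlF F 1 * ⌊y.U ω i / dlF F 1⌋

/-- the rounded direction of the second copy -/
def uu (w : (y.lab Q).T.Ω) : Fin N → ℝ := y.ru w.2

theorem uu_fn (w w' : (y.lab Q).T.Ω) (hw : (y.lab Q).V w w') : y.uu Q w = y.uu Q w' := by
  have h1 : cell (dlF F 1) (y.U w.2) = cell (dlF F 1) (y.U w'.2) := hw
  funext i
  unfold uu ru
  by_cases hi : i = y.j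
  · rw [if_pos hi, if_pos hi]
  · rw [if_neg hi, if_neg hi]
    have h2 : ⌊y.U w.2 i / dlF F 1⌋ = ⌊y.U w'.2 i / dlF F 1⌋ := congrFun h1 i
    rw [h2]

theorem ru_close {δ : ℝ} (hy : y.Ok Q δ) (ω : y.T.Ω) (hω : y.T.μ ω ≠ 0) (i : Fin N) :
    |y.ru ω i - y.U ω i| ≤ dlF F 1 := by
  unfold ru
  have h0 := dlF_pos F 1
  by_cases hi : i = y.j
  · rw [if_pos hi, hi, hy.one ω hω, sub_self, abs_zero]
    exact h0.le
  · rw [if_neg hi]
    have h1 := Int.floor_le (y.U ω i / dlF F 1)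
    have h2 := Int.lt_floor_add_one (y.U ω i / dlF F 1)
    have e1 : y.U ω i = dlF F 1 * (y.U ω i / dlF F 1) := by field_simp
    rw [abs_le]
    constructor <;> nlinarith

theorem dlF_le_one (F : FSp) : dlF F 1 ≤ 1 := by
  have := F.pos
  exact Real.rpow_le_one_of_one_le_of_nonpos (by norm_num) (by linarith)

theorem uu_bd {δ : ℝ} (hy : y.Ok Q δ) (w : (y.lab Q).T.Ω) (hw : (y.lab Q).T.μ w ≠ 0) :
    y.uu Q w y.j = 1 ∧ ∀ i, |y.uu Q w i| ≤ 2 := by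
  have h1 := ((y.am Q).supp w hw).2.2
  refine ⟨if_pos rfl, fun i => ?_⟩
  have h2 := y.ru_close Q hy w.2 h1 i
  have h3 := hy.le w.2 h1 i
  have h4 := dlF_le_one F
  have h5 : |y.ru w.2 i| ≤ |y.ru w.2 i - y.U w.2 i| + |y.U w.2 i| := by
    have := abs_add_le (y.ru w.2 i - y.U w.2 i) (y.U w.2 i)
    rwa [sub_add_cancel] at this
  show |y.ru w.2 i| ≤ 2
  linarith

/-- the two points have the same cell -/
theorem am_cell (w : (y.am Q).sp.Ω) (hw : (y.am Q).sp.μ w ≠ 0) :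
    cell (dlF F 1) (Q (y.p.π w.1)) = cell (dlF F 1) (Q (y.p.π w.2)) := by
  have h1 : Quotient.mk (y.pt Q ⊓ y.T.Z) w.1 = Quotient.mk (y.pt Q ⊓ y.T.Z) w.2 := ((y.am Q).supp w hw).1
  have h2 : (y.pt Q ⊓ y.T.Z) w.1 w.2 := Quotient.exact h1
  exact h2.1

/-- THE LABEL HAS SMALL INFORMATION -/
theorem lab_info : (y.lab Q).info ≤ I (fc (cl1 F y.U)) (fc (y.pt Q)) ⊥ := by
  have e1 : (y.lab Q).v = (y.am Q).p2.map (fc (cl1 F y.U)) := rfl
  have e2 : (y.lab Q).p.top = (y.am Q).p1.map y.p.top := (y.am Q).p1.comp_top y.p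
  have h1 := (y.am Q).indep y.p.top (fc (cl1 F y.U))
  rw [(y.am Q).common] at h1
  have h2 : (y.am Q).p2.map (fc (Setoid.ker (y.am Q).g)) ≤ (y.am Q).p2.map (fc (y.pt Q)) := by
    apply (y.am Q).p2.map_mono
    have := FAm.self_le y.T (y.pt Q)
    exact this
  have h3 : I ((y.am Q).p2.map (fc (cl1 F y.U))) ((y.am Q).p1.map y.p.top) ⊥ ≤
      I ((y.am Q).p2.map (fc (cl1 F y.U))) ((y.am Q).p2.map (fc (Setoid.ker (y.am Q).g))) ⊥ := by
    have h4 := I_exchange ((y.am Q).p2.map (fc (cl1 F y.U))) ((y.am Q).p1.map y.p.top)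
      ((⊥ : FL (y.am Q).sp)) ((y.am Q).p2.map (fc (Setoid.ker (y.am Q).g)))
    rw [sup_bot_eq, sup_bot_eq] at h4
    rw [I_comm] at h1
    have h5 := I_nonneg ((y.am Q).p2.map (fc (cl1 F y.U))) ((y.am Q).p2.map (fc (Setoid.ker (y.am Q).g)))
      ((y.am Q).p1.map y.p.top)
    linarith
  have h6 : I ((y.am Q).p2.map (fc (cl1 F y.U))) ((y.am Q).p2.map (fc (Setoid.ker (y.am Q).g))) ⊥ ≤
      I ((y.am Q).p2.map (fc (cl1 F y.U))) ((y.am Q).p2.map (fc (y.pt Q))) ⊥ :=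
    I_mono_right (h2.trans le_sup_left)
  have h7 := (y.am Q).p2.I_map (fc (cl1 F y.U)) (fc (y.pt Q)) ⊥
  rw [(y.am Q).p2.map_bot] at h7
  show I (y.lab Q).v (y.lab Q).p.top ⊥ ≤ _
  rw [e1, e2, ← h7]
  exact h3.trans h6

/-- the quotient by the direction of the second copy is the quotient of the second copy -/
theorem quo_le {δ K : ℝ} (hK : 0 ≤ K) (hQ : ∀ ω, F.μ ω ≠ 0 → ∀ i, |Q ω i| ≤ K) (hy : y.Ok Q δ) :
    h (fc (cl1 F fun w : (y.lab Q).T.Ω => quo (Q ((y.lab Q).p.π w)) (y.uu Q w) y.j)) (y.lab Q).v ≤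
      h (fc (cl1 F fun ω => quo (Q (y.p.π ω)) (y.U ω) y.j)) (fc (cl1 F y.U)) + N * Real.logb 2 (2 * K + 9) := by
  have e1 : (y.lab Q).v = (y.am Q).p2.map (fc (cl1 F y.U)) := rfl
  have h0 := dlF_pos F 1
  have hc : ∀ w : (y.am Q).sp.Ω, (y.am Q).sp.μ w ≠ 0 → ∀ i,
      |quo (Q (y.p.π w.1)) (y.ru w.2) y.j i - quo (Q (y.p.π w.2)) (y.U w.2) y.j i| ≤ (K + 3) * dlF F 1 := by
    intro w hw i
    have a1 := cell_close (y.am_cell Q w hw)
    have a2 := ((y.am Q).supp w hw).2.2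
    have a3 := y.ru_close Q hy w.2 a2 i
    have a4 : |y.ru w.2 i| ≤ 2 := (y.uu_bd Q hy w hw).2 i
    have a5 := hQ _ (y.p.supp _ a2) y.j
    have e2 : quo (Q (y.p.π w.1)) (y.ru w.2) y.j i - quo (Q (y.p.π w.2)) (y.U w.2) y.j i =
        (Q (y.p.π w.1) i - Q (y.p.π w.2) i) + -(y.ru w.2 i * (Q (y.p.π w.1) y.j - Q (y.p.π w.2) y.j)) +
        -((y.ru w.2 i - y.U w.2 i) * Q (y.p.π w.2) y.j) := by
      unfold quo
      ring
    rw [e2]
    refine (abs_add_three _ _ _).trans ?_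
    rw [abs_neg, abs_neg, abs_mul, abs_mul]
    have b1 := a1 i
    have b2 := a1 y.j
    have c1 : |y.ru w.2 i| * |Q (y.p.π w.1) y.j - Q (y.p.π w.2) y.j| ≤ 2 * dlF F 1 :=
      mul_le_mul a4 b2 (abs_nonneg _) (by norm_num)
    have c2 : |y.ru w.2 i - y.U w.2 i| * |Q (y.p.π w.2) y.j| ≤ dlF F 1 * K :=
      mul_le_mul a3 a5 (abs_nonneg _) h0.le
    linarith
  have h1 := h_triangle' (fc (cl1 F fun w : (y.lab Q).T.Ω => quo (Q ((y.lab Q).p.π w)) (y.uu Q w) y.j))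
    ((y.am Q).p2.map (fc (cl1 F fun ω => quo (Q (y.p.π ω)) (y.U ω) y.j))) (y.lab Q).v
  have h2 := h_cell_osc (F := F) (Ω := (y.lab Q).T) (fun w : (y.lab Q).T.Ω => quo (Q ((y.lab Q).p.π w)) (y.uu Q w) y.j)
    (Setoid.comap (y.am Q).p2.π (cl1 F fun ω => quo (Q (y.p.π ω)) (y.U ω) y.j)) (2 * K + 7) (by linarith) (by
    intro w w' a b c d i
    have d1 := hc w a i
    have d2 := hc w' b i
    have d3 := cell_close (F := F) d i
    have e3 : quo (Q ((y.lab Q).p.π w)) (y.uu Q w) y.j i - quo (Q ((y.lab Q).p.π w')) (y.uu Q w') y.j i =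
      (quo (Q (y.p.π w.1)) (y.ru w.2) y.j i - quo (Q (y.p.π w.2)) (y.U w.2) y.j i) +
      (quo (Q (y.p.π w.2)) (y.U w.2) y.j i - quo (Q (y.p.π w'.2)) (y.U w'.2) y.j i) +
      -(quo (Q (y.p.π w'.1)) (y.ru w'.2) y.j i - quo (Q (y.p.π w'.2)) (y.U w'.2) y.j i) := by
      show quo (Q (y.p.π w.1)) (y.ru w.2) y.j i - quo (Q (y.p.π w'.1)) (y.ru w'.2) y.j i = _
      ring
    rw [e3]
    refine (abs_add_three _ _ _).trans ?_
    rw [abs_neg]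
    have d4 : |quo (Q (y.p.π w.2)) (y.U w.2) y.j i - quo (Q (y.p.π w'.2)) (y.U w'.2) y.j i| ≤ dlF F 1 := d3
    linarith)
  have h3 := (y.am Q).p2.h_map (fc (cl1 F fun ω => quo (Q (y.p.π ω)) (y.U ω) y.j)) (fc (cl1 F y.U))
  rw [← e1] at h3
  have e4 : 2 * K + 7 + 2 = 2 * K + 9 := by ring
  rw [e4] at h2
  exact (h1.trans (add_le_add h2 (le_of_eq h3))).trans (le_of_eq (add_comm _ _))

/-- THE POINT HAS FULL ENTROPY: quotient + speed -/
theorem H_ge {δ K : ℝ} (hK : 0 ≤ K) (hQ : ∀ ω, F.μ ω ≠ 0 → ∀ i, |Q ω i| ≤ K) (hy : y.Ok Q δ) :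
    h (fc (cl1 F fun ω => quo (Q (y.p.π ω)) (y.U ω) y.j)) (fc (cl1 F y.U)) + (1 - 3 * δ) * F.n -
      N * Real.logb 2 (K + 4) ≤ H (fc (cl1 F Q)) := by
  have h0 := dlF_pos F 1
  have e0 : y.p.map (fc (cl1 F Q)) = fc (y.pt Q) := rfl
  have h1 : H (fc (cl1 F Q)) = H (fc (y.pt Q)) := by rw [← e0, y.p.H_map]
  have a1 : h (fc (y.pt Q)) (fc (cl1 F y.U)) ≤ H (fc (y.pt Q)) := h_le_H _ _
  have a2 : (fc (cl1 F (co (fun ω => Q (y.p.π ω)) y.j)) : FL y.T) ≤ fc (y.pt Q) := fc_mono (by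
    intro ω ω' hω
    have h2 : cell (dlF F 1) (Q (y.p.π ω)) = cell (dlF F 1) (Q (y.p.π ω')) := hω
    show cell (dlF F 1) (co (fun ω => Q (y.p.π ω)) y.j ω) = cell (dlF F 1) (co (fun ω => Q (y.p.π ω)) y.j ω')
    funext i
    exact congrFun h2 y.j)
  have a3 : h (fc (cl1 F fun ω => quo (Q (y.p.π ω)) (y.U ω) y.j)) (fc (y.pt Q) ⊔ fc (cl1 F y.U)) ≤
      N * Real.logb 2 (K + 4) := by
    have h2 := h_cell_osc (F := F) (Ω := y.T) (fun ω => quo (Q (y.p.π ω)) (y.U ω) y.j)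
      (y.pt Q ⊓ cl1 F y.U) (K + 2) (by linarith) (by
      intro ω ω' a b _ d i
      have d1 := cell_close (F := F) d.1
      have d2 := cell_close (F := F) d.2 i
      have d3 := hQ _ (y.p.supp _ a) y.j
      have d4 := hy.le ω' b i
      have e3 : quo (Q (y.p.π ω)) (y.U ω) y.j i - quo (Q (y.p.π ω')) (y.U ω') y.j i =
        (Q (y.p.π ω) i - Q (y.p.π ω') i) + -((y.U ω i - y.U ω' i) * Q (y.p.π ω) y.j) +
        -(y.U ω' i * (Q (y.p.π ω) y.j - Q (y.p.π ω') y.j)) := by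
        unfold quo
        ring
      rw [e3]
      refine (abs_add_three _ _ _).trans ?_
      rw [abs_neg, abs_neg, abs_mul, abs_mul]
      have c1 : |y.U ω i - y.U ω' i| * |Q (y.p.π ω) y.j| ≤ dlF F 1 * K := mul_le_mul d2 d3 (abs_nonneg _) h0.le
      have c2 : |y.U ω' i| * |Q (y.p.π ω) y.j - Q (y.p.π ω') y.j| ≤ 1 * dlF F 1 :=
        mul_le_mul d4 (d1 y.j) (abs_nonneg _) (by norm_num)
      have c3 := d1 i
      have c4 : |Q (y.p.π ω) i - Q (y.p.π ω') i| ≤ dlF F 1 := c3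
      linarith)
    have e4 : K + 2 + 2 = K + 4 := by ring
    rw [e4, fc_inf] at h2
    exact h2
  have b1 := h_chain (fc (cl1 F fun ω => quo (Q (y.p.π ω)) (y.U ω) y.j)) (fc (cl1 F (co (fun ω => Q (y.p.π ω)) y.j)))
    (fc (cl1 F y.U))
  have b2 := h_chain (fc (y.pt Q)) (fc (cl1 F fun ω => quo (Q (y.p.π ω)) (y.U ω) y.j)) (fc (cl1 F y.U))
  have b3 : h (fc (cl1 F fun ω => quo (Q (y.p.π ω)) (y.U ω) y.j) ⊔ fc (cl1 F (co (fun ω => Q (y.p.π ω)) y.j)))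
      (fc (cl1 F y.U)) ≤ h (fc (y.pt Q) ⊔ fc (cl1 F fun ω => quo (Q (y.p.π ω)) (y.U ω) y.j)) (fc (cl1 F y.U)) :=
    h_mono (sup_le le_sup_right (a2.trans le_sup_left))
  have b4 : h (fc (cl1 F (co (fun ω => Q (y.p.π ω)) y.j)))
      (fc y.La ⊔ (fc (cl1 F fun ω => quo (Q (y.p.π ω)) (y.U ω) y.j) ⊔ fc (cl1 F y.U))) ≤
      h (fc (cl1 F (co (fun ω => Q (y.p.π ω)) y.j)))
      (fc (cl1 F fun ω => quo (Q (y.p.π ω)) (y.U ω) y.j) ⊔ fc (cl1 F y.U)) := h_anti le_sup_right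
  have b5 := h_chain (fc (cl1 F fun ω => quo (Q (y.p.π ω)) (y.U ω) y.j) ⊔ fc (cl1 F y.U))
    (fc (cl1 F (co (fun ω => Q (y.p.π ω)) y.j))) (fc y.La)
  have b6 : h (fc (cl1 F (co (fun ω => Q (y.p.π ω)) y.j))) (fc y.La) ≤
      h ((fc (cl1 F fun ω => quo (Q (y.p.π ω)) (y.U ω) y.j) ⊔ fc (cl1 F y.U)) ⊔
      fc (cl1 F (co (fun ω => Q (y.p.π ω)) y.j))) (fc y.La) := h_mono le_sup_right
  have b7 := h_sup_le (fc (cl1 F fun ω => quo (Q (y.p.π ω)) (y.U ω) y.j)) (fc (cl1 F y.U)) (fc y.La)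
  have e5 : (fc (cl1 F fun ω => quo (Q (y.p.π ω)) (y.U ω) y.j) ⊔ fc (cl1 F y.U)) ⊔ fc y.La =
      fc y.La ⊔ (fc (cl1 F fun ω => quo (Q (y.p.π ω)) (y.U ω) y.j) ⊔ fc (cl1 F y.U)) := sup_comm _ _
  rw [e5] at b5
  have c1 := hy.quo
  have c2 := hy.full
  have c3 := hy.dir
  rw [h1]
  linarith

end Dat

end

end Pool.Agent.Helper67.SAT
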