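import Pool.Agent.Helper67.SAT.Tel

/-! SAT: the coordinate `p` of the parameter is free over the window `c`, the label of the window `c` and all other
coordinates of the parameter. -/

set_option autoImplicit false

namespace Pool.Agent.Helper67.SAT

open Finset Filter Topology Pool.Agent.Helper69.RK Pool.Agent.Helper31.EC Pool.Agent.Helper31.EC.Sp
open Pool.Agent.Helper40.EL Pool.Agent.Helper89.LX Pool.Agent.Helper84.MT Pool.Agent.Helper36.AM

noncomputable section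

variable {S : Sp} {M : ℕ} {E : ℕ → ℕ} {ι : Type}

/-- some coordinates of a vector -/
def sb {m m' : ℕ} (Y : S.VV m) (f : Fin m' → Fin m) : S.VV m' := ⟨fun k ω i => Y.v k ω (f i), by
  obtain ⟨K, hK, h⟩ := Y.bd
  exact ⟨K, hK, h.mono fun k hk ω hω i => hk ω hω (f i)⟩⟩

/-- the coordinates other than `p` -/
def oth {m : ℕ} (p : Fin m) : Fin (Finset.univ.erase p).card → Fin m := fun i => ((Finset.univ.erase p).equivFin.symm i).1

theorem oth_surj {m : ℕ} (p q : Fin m) (h : q ≠ p) : ∃ i, oth p i = q :=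
  ⟨(Finset.univ.erase p).equivFin ⟨q, Finset.mem_erase.mpr ⟨h, Finset.mem_univ _⟩⟩, by
    unfold oth
    rw [Equiv.symm_apply_apply]⟩

theorem oth_card {m : ℕ} (p : Fin m) : (((Finset.univ.erase p).card : ℕ) : ℝ) = (m : ℝ) - 1 := by
  have h1 : (Finset.univ.erase p).card = m - 1 := by
    rw [Finset.card_erase_of_mem (Finset.mem_univ _), Finset.card_univ, Fintype.card_fin]
  have h2 : 1 ≤ m := by
    have := p.2
    omega
  rw [h1, Nat.cast_sub h2, Nat.cast_one]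

/-- the partition of the line: the leaf, the window `c`, all coordinates of the parameter but one -/
def ln {Q : S.VV M} (lf : Leaf S Q E) (p : Fin lf.e) (c : ℝ) (k : ℕ) : Setoid (S.F k).Ω :=
  (lf.La k ⊓ Setoid.ker (lf.Y.cellv c k)) ⊓ Setoid.ker ((sb lf.Y (oth p)).cellv 1 k)

theorem ln_close {Q : S.VV M} (lf : Leaf S Q E) (p : Fin lf.e) (c : ℝ) (k : ℕ) {ω ω' : (S.F k).Ω}
    (h : ln lf p c k ω ω') (q : Fin lf.e) (hq : q ≠ p) : |lf.Y.v k ω q - lf.Y.v k ω' q| ≤ S.dl 1 k := by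
  obtain ⟨i, rfl⟩ := oth_surj p q hq
  have h1 : (sb lf.Y (oth p)).cellv 1 k ω = (sb lf.Y (oth p)).cellv 1 k ω' := h.2
  exact abs_sub_le_of_floor_eq (S.dl_pos 1 k) (congrFun h1 i)

/-- FREEDOM of the coordinate `p` -/
theorem low (s : MSys S M E ι) (i : ι) (p : Fin (s.lf i).e) {c b : ℝ} (hc : 0 ≤ c) (hcb : c ≤ b) (hb : b ≤ 1)
    {l : Lab S} (hl : s.DMc c l) (ε : ℝ) (hε : 0 < ε) : ∀ᶠ k in UF, (b - c - ε) * (S.F k).n ≤
      h (fc (Setoid.comap (l k).p.π (Setoid.ker ((sb (s.lf i).Y fun _ : Fin 1 => p).cellv b k))))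
        (fc (Setoid.comap (l k).p.π (ln (s.lf i) p c k)) ⊔ (l k).v) := by
  set Y : l.sp.VV (s.lf i).e := l.pj.vv (s.lf i).Y with hY
  set B : ∀ k, Setoid (l.sp.F k).Ω := fun k => Setoid.comap (l k).p.π ((s.lf i).La k ⊓ Setoid.ker ((s.lf i).Y.cellv c k)) ⊓
    (l k).V with hB
  have hBY : ∀ k, B k ≤ Setoid.ker (Y.cellv c k) := by
    intro k ω ω' h
    show Y.cellv c k ω = Y.cellv c k ω'
    rw [hY, vv_cellv]
    exact h.1.2
  have h1 : ∀ᶠ k in UF, (((s.lf i).e : ℝ) * (1 - c) - ε / 4) * (S.F k).n ≤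
      h (fc (Setoid.ker (Y.cellv 1 k)) : FL (l.sp.F k)) (fc (B k)) := by
    have a1 := (s.lf i).full_win hc (hcb.trans hb) le_rfl
    have a2 : Tendsto (fun k => (l k).leak ((s.lf i).win c k) / (S.F k).n) UF (𝓝 0) := hl (some i)
    filter_upwards [a1.eventually (lt_mem_nhds (show ((s.lf i).e : ℝ) * (1 - c) - ε / 8 < (s.lf i).e * (1 - c) by linarith)),
      a2.eventually (gt_mem_nhds (show (0 : ℝ) < ε / 8 by linarith))] with k b1 b2
    have hn := (S.F k).pos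
    rw [lt_div_iff₀ hn] at b1
    rw [div_lt_iff₀ hn] at b2
    have e1 : (fc (Setoid.ker (Y.cellv 1 k)) : FL (l.sp.F k)) = (l k).p.map (fc (Setoid.ker ((s.lf i).Y.cellv 1 k))) := by
      rw [hY, vv_cellv]
      rfl
    have e2 : (fc (B k) : FL (l.sp.F k)) = (l k).v ⊔ (l k).p.map ((s.lf i).win c k) := by
      rw [sup_comm]
      rfl
    have e3 := (l k).p.h_map (fc (Setoid.ker ((s.lf i).Y.cellv 1 k))) ((s.lf i).win c k)
    have e4 := I_eq' (l k).v ((l k).p.map (fc (Setoid.ker ((s.lf i).Y.cellv 1 k)))) ((l k).p.map ((s.lf i).win c k))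
    have e5 : I (l k).v ((l k).p.map (fc (Setoid.ker ((s.lf i).Y.cellv 1 k)))) ((l k).p.map ((s.lf i).win c k)) ≤
        (l k).leak ((s.lf i).win c k) := I_mono_right (((l k).p.map_le_top _).trans le_sup_left)
    have e6 : (((s.lf i).e : ℝ) * (1 - c) - ε / 4) * (S.F k).n ≤
        h ((l k).p.map (fc (Setoid.ker ((s.lf i).Y.cellv 1 k)))) ((l k).v ⊔ (l k).p.map ((s.lf i).win c k)) := by
      nlinarith
    rw [e1, e2]
    exact e6
  have h2 := h_cell_cell_le (S := l.sp) (sb Y (oth p)) (hcb.trans hb) B (fun k ω ω' h => by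
    have h3 : Y.cellv c k ω = Y.cellv c k ω' := hBY k h
    show (sb Y (oth p)).cellv c k ω = (sb Y (oth p)).cellv c k ω'
    funext q
    exact congrFun h3 (oth p q)) (ε / 4) (by linarith)
  have h3 := h_cell_cell_le (S := l.sp) (sb Y fun _ : Fin 1 => p) hb
    (fun k => Setoid.ker ((sb Y fun _ : Fin 1 => p).cellv b k) ⊓ (Setoid.ker ((sb Y (oth p)).cellv 1 k) ⊓ B k))
    (fun k => inf_le_left) (ε / 4) (by linarith)
  filter_upwards [h1, h2, h3] with k a1 a2 a3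
  have hnn : (l.sp.F k).n = (S.F k).n := (l k).hn
  have hn := (S.F k).pos
  rw [hnn, div_le_iff₀ hn] at a2 a3
  rw [oth_card] at a2
  have e1 : (fc (Setoid.comap (l k).p.π (ln (s.lf i) p c k)) ⊔ (l k).v : FL (l.sp.F k)) =
      fc (Setoid.ker ((sb Y (oth p)).cellv 1 k)) ⊔ fc (B k) := by
    have e2 : (fc (Setoid.comap (l k).p.π (ln (s.lf i) p c k)) : FL (l.sp.F k)) =
        fc (Setoid.comap (l k).p.π ((s.lf i).La k ⊓ Setoid.ker ((s.lf i).Y.cellv c k))) ⊔
          fc (Setoid.ker ((sb Y (oth p)).cellv 1 k)) := by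
      have e5 : sb Y (oth p) = l.pj.vv (sb (s.lf i).Y (oth p)) := rfl
      rw [e5, vv_cellv]
      rfl
    have e3 : (fc (B k) : FL (l.sp.F k)) =
        fc (Setoid.comap (l k).p.π ((s.lf i).La k ⊓ Setoid.ker ((s.lf i).Y.cellv c k))) ⊔ (l k).v := rfl
    rw [e2, e3]
    exact (sup_assoc _ _ _).trans (sup_left_comm _ _ _)
  have c1 := h_chain (fc (Setoid.ker ((sb Y (oth p)).cellv 1 k)) : FL (l.sp.F k))
    (fc (Setoid.ker ((sb Y fun _ : Fin 1 => p).cellv b k)) ⊔ fc (Setoid.ker ((sb Y fun _ : Fin 1 => p).cellv 1 k)))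
    (fc (B k))
  have c2 := h_chain (fc (Setoid.ker ((sb Y fun _ : Fin 1 => p).cellv b k)) : FL (l.sp.F k))
    (fc (Setoid.ker ((sb Y fun _ : Fin 1 => p).cellv 1 k))) (fc (Setoid.ker ((sb Y (oth p)).cellv 1 k)) ⊔ fc (B k))
  have c3 : h (fc (Setoid.ker (Y.cellv 1 k)) : FL (l.sp.F k)) (fc (B k)) ≤
      h (fc (Setoid.ker ((sb Y (oth p)).cellv 1 k)) ⊔ (fc (Setoid.ker ((sb Y fun _ : Fin 1 => p).cellv b k)) ⊔
        fc (Setoid.ker ((sb Y fun _ : Fin 1 => p).cellv 1 k)))) (fc (B k)) := by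
    apply h_mono
    have c4 : (fc (Setoid.ker (Y.cellv 1 k)) : FL (l.sp.F k)) ≤ fc (Setoid.ker ((sb Y (oth p)).cellv 1 k)) ⊔
        fc (Setoid.ker ((sb Y fun _ : Fin 1 => p).cellv 1 k)) := by
      rw [← fc_inf]
      apply fc_mono
      intro ω ω' hh
      have d1 : (sb Y (oth p)).cellv 1 k ω = (sb Y (oth p)).cellv 1 k ω' := hh.1
      have d2 : (sb Y fun _ : Fin 1 => p).cellv 1 k ω = (sb Y fun _ : Fin 1 => p).cellv 1 k ω' := hh.2
      show Y.cellv 1 k ω = Y.cellv 1 k ω'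
      funext q
      by_cases hq : q = p
      · rw [hq]
        exact congrFun d2 0
      · obtain ⟨j, hj⟩ := oth_surj p q hq
        rw [← hj]
        exact congrFun d1 j
    exact c4.trans (sup_le le_sup_left (le_sup_right.trans le_sup_right))
  have e4 : (fc (Setoid.ker ((sb Y fun _ : Fin 1 => p).cellv b k) ⊓ (Setoid.ker ((sb Y (oth p)).cellv 1 k) ⊓ B k)) :
      FL (l.sp.F k)) = fc (Setoid.ker ((sb Y fun _ : Fin 1 => p).cellv b k)) ⊔
      (fc (Setoid.ker ((sb Y (oth p)).cellv 1 k)) ⊔ fc (B k)) := rfl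
  rw [e4] at a3
  have goal : (b - c - ε) * (S.F k).n ≤ h (fc (Setoid.ker ((sb Y fun _ : Fin 1 => p).cellv b k)) : FL (l.sp.F k))
      (fc (Setoid.ker ((sb Y (oth p)).cellv 1 k)) ⊔ fc (B k)) := by
    push_cast at a3
    nlinarith
  rw [← e1] at goal
  have e5 : (sb Y fun _ : Fin 1 => p) = l.pj.vv (sb (s.lf i).Y fun _ : Fin 1 => p) := rfl
  rw [e5, vv_cellv] at goal
  exact goal

end

end Pool.Agent.Helper67.SAT
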