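import Pool.Agent.Helper67.SAT.Zd

/-! SAT: the data of a zoom are correct (proof). -/

set_option autoImplicit false

namespace Pool.Agent.Helper67.SAT

open Finset Filter Topology Pool.Agent.Helper69.RK Pool.Agent.Helper31.EC Pool.Agent.Helper31.EC.Sp
open Pool.Agent.Helper40.EL Pool.Agent.Helper89.LX Pool.Agent.Helper84.MT Pool.Agent.Helper36.AM
open Pool.Agent.Helper49.MD (dlF)

noncomputable section

variable {S : Sp} {M : ℕ} {E E' : ℕ → ℕ} {ι ι' : Type}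

/-- entropy over the label in the space over the label -/
theorem ovr_h (l : Lab S) (e : ℝ) (he : 0 < e) (k : ℕ) (A B : Setoid (l k).T.Ω) :
    h (fc A : FL ((l.ovr e he).F k)) (fc B) = h (fc A : FL (l k).T) (fc B ⊔ (l k).v) :=
  (frb (l k).T (l k).V e he).h_map (fc A) (fc B)

theorem ovr_I (l : Lab S) (e : ℝ) (he : 0 < e) (k : ℕ) (A B : Setoid (l k).T.Ω) :
    I (fc A : FL ((l.ovr e he).F k)) (fc B) ⊥ = I (fc A : FL (l k).T) (fc B) (l k).v := by
  have h1 := (frb (l k).T (l k).V e he).I_map (fc A) (fc B) ⊥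
  rw [(frb (l k).T (l k).V e he).map_bot, bot_sup_eq] at h1
  exact h1

theorem dl_sub (S : Sp) (a b : ℝ) (k : ℕ) : S.dl a k / S.dl b k = S.dl (a - b) k := by
  have h1 := S.dl_add (a - b) b k
  rw [sub_add_cancel] at h1
  rw [h1, mul_div_cancel_right₀ _ (S.dl_pos b k).ne']

/-- THE DATA OF A ZOOM ARE CORRECT -/
theorem dat_ok (s : MSys S M E ι) (i : ι) (ha : Aff (s.lf i)) (j : Fin M) (p : Fin (s.lf i).e) {δ c e : ℝ}
    (hbig : ∀ᶠ k in UF, ∀ ω, (S.F k).μ ω ≠ 0 → Big (s.lf i) j p δ k ω) (hc : 0 < c) (he : 0 < e) (hce : c + e ≤ 1)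
    (hδ : 0 ≤ δ) (hδe : δ ≤ e) {l : Lab S} (hl : s.DMc c l) {La : Fin M → ℝ} (f : Frm s.Q l La) (hLa : ∀ j, La j = c)
    (tQ : (l.ovr e he).VV M)
    (ht : ∃ K : ℕ → ℝ, S.Sub K ∧ ∀ᶠ k in UF, ∀ ω : (l.sp.F k).Ω, (l.sp.F k).μ ω ≠ 0 → ∀ j,
      |tQ.v k ω j - f.X.v k ω j| ≤ K k * S.dl e k) {κ δ0 : ℝ} (h0 : δ < δ0 * e) (hκ : κ < δ0 * e) (hδ0 : 0 < δ0)
    (hI : ∀ᶠ k in UF, I ((l k).p.map (us (s.lf i) j p e k)) ((l k).p.map (qd s (c + e) k)) (l k).v ≤ κ * (S.F k).n) :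
    ∀ᶠ k in UF, (dat (s.lf i) j p l c e he k).Ok (tQ.v k) δ0 := by
  obtain ⟨K, hK, hcs⟩ := consts (s.lf i) ha f hc he hce hLa tQ ht
  have l1 := sub_log ((S.Sub_const (show (0 : ℝ) ≤ 12 + 2 * ((s.lf i).e : ℝ) by positivity)).mul hK)
    (δ0 * e / (M + 1)) (by positivity)
  have l2 := sub_log ((S.Sub_const (show (0 : ℝ) ≤ 1 by norm_num)).add
    ((S.Sub_const (show (0 : ℝ) ≤ 6 + ((s.lf i).e : ℝ) by positivity)).mul hK)) ((δ0 * e - δ) / 2) (by linarith)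
  have l3 := sub_log ((S.Sub_const (show (0 : ℝ) ≤ 1 by norm_num)).add
    ((S.Sub_const (show (0 : ℝ) ≤ 4 by norm_num)).mul hK)) ((δ0 * e - κ) / (M + 1)) (div_pos (by linarith) (by positivity))
  have l4 := low s i p hc.le (show c ≤ c + e - δ by linarith) (show c + e - δ ≤ 1 by linarith) hl
    ((δ0 * e - δ) / 2) (by linarith)
  filter_upwards [hcs, l1, l2, l3, l4, hbig, (s.lf i).fn, f.fn, hI] with k a0 a1 a2 a3 a4 a5 a6 a7 a8
  obtain ⟨hK0, a0⟩ := a0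
  have hn := (S.F k).pos
  have hnn : ((l.ovr e he).F k).n = e * (S.F k).n := l.n_over e he k
  have hD := S.dl_pos c k
  have hd := S.dl_pos (c + e) k
  have hdD : S.dl (c + e) k / S.dl c k = S.dl e k := by
    rw [dl_sub, add_sub_cancel_left]
  have hdl : dlF ((l.ovr e he).F k) 1 = S.dl e k := ovr_dl l e he k
  have hM : (0 : ℝ) < (M : ℝ) + 1 := by positivity
  have hbg : ∀ ω : (l k).T.Ω, (l k).T.μ ω ≠ 0 → Big (s.lf i) j p δ k ((l k).p.π ω) := fun ω hω => a5 _ ((l k).p.supp ω hω)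
  have hne : ∀ ω : (l k).T.Ω, (l k).T.μ ω ≠ 0 → sl (s.lf i) k ((l k).p.π ω) j p ≠ 0 := by
    intro ω hω h1
    have h2 := (hbg ω hω).1
    rw [h1, abs_zero] at h2
    exact absurd (S.dl_pos δ k) (not_lt.mpr h2)
  -- two points of one leaf over the label
  have hsm : ∀ ω ω' : (l k).T.Ω, (l k).T.μ ω ≠ 0 → (l k).T.μ ω' ≠ 0 → (l k).T.Z ω ω' →
      (s.lf i).La k ((l k).p.π ω) ((l k).p.π ω') → (s.lf i).F k ((l k).p.π ω) = (s.lf i).F k ((l k).p.π ω') := by
    intro ω ω' h1 h2 h3 h4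
    exact a6 _ _ ((l k).p.supp ω h1) ((l k).p.supp ω' h2) (((l k).p.hZ ω ω' h1 h2).mp h3) h4
  have hsl : ∀ ω ω' : (l k).T.Ω, (s.lf i).F k ((l k).p.π ω) = (s.lf i).F k ((l k).p.π ω') →
      sl (s.lf i) k ((l k).p.π ω) = sl (s.lf i) k ((l k).p.π ω') := by
    intro ω ω' h1
    funext i' q
    unfold sl
    rw [h1]
  refine ⟨?_, ?_, ?_, ?_, ?_, ?_⟩
  · intro ω hω
    exact div_self (hne ω hω)
  · intro ω hω i'
    show |sl (s.lf i) k ((l k).p.π ω) i' p / sl (s.lf i) k ((l k).p.π ω) j p| ≤ 1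
    rw [abs_div, div_le_one (abs_pos.mpr (hne ω hω))]
    exact (hbg ω hω).2 i'
  · -- the quotient
    have h1 := h_cell_osc (F := (l.ovr e he).F k) (Ω := (l.ovr e he).F k)
      (fun ω => quo (tQ.v k ω) (rat (s.lf i) j p k ((l k).p.π ω)) j) (Setoid.comap (l k).p.π (ln (s.lf i) p c k))
      ((12 + 2 * ((s.lf i).e : ℝ)) * K k) (by positivity) (by
      intro ω ω' b1 b2 b3 b4 i'
      have c1 := a0 ω b1
      have c2 := a0 ω' b2
      have hF := hsm ω ω' b1 b2 b3.2 b4.1.1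
      have hP : f.P k ω = f.P k ω' := a7 ω ω' b1 b2 b3.2 b3.1
      have hS := hsl ω ω' hF
      rw [← hF, ← hS, ← hP] at c2
      have e1 : rat (s.lf i) j p k ((l k).p.π ω') = rat (s.lf i) j p k ((l k).p.π ω) := by
        unfold rat
        rw [hS]
      rw [e1, hdl, ← hdD]
      exact quo_osc hD hd.le hK0 j p c1.1 c2.1 c1.2 (hne ω b1) (hbg ω b1).2 (fun q hq =>
        (ln_close (s.lf i) p c k b4 q hq).trans (S.dl_anti hce k)) i')
    refine le_trans h1 ?_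
    rw [hnn]
    have h2 : (M : ℝ) * Real.logb 2 ((12 + 2 * ((s.lf i).e : ℝ)) * K k + 2) ≤ M * (δ0 * e / (M + 1) * (S.F k).n) :=
      mul_le_mul_of_nonneg_left a1 (Nat.cast_nonneg M)
    have h3 : (M : ℝ) * (δ0 * e / (M + 1) * (S.F k).n) ≤ δ0 * (e * (S.F k).n) := by
      have h4 : (M : ℝ) * (δ0 * e / (M + 1) * (S.F k).n) = (M / (M + 1)) * (δ0 * (e * (S.F k).n)) := by
        field_simp
      rw [h4]
      have h5 : (M : ℝ) / (M + 1) ≤ 1 := by
        rw [div_le_one hM]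
        linarith
      have h6 : 0 ≤ δ0 * (e * (S.F k).n) := by positivity
      nlinarith
    exact h2.trans h3
  · -- the speed
    have h1 : h (fc (cl1 ((l.ovr e he).F k) (co (tQ.v k) j)) : FL ((l.ovr e he).F k))
        (fc (Setoid.comap (l k).p.π (ln (s.lf i) p c k))) = _ := ovr_h l e he k _ _
    have h2 := h_chain (fc (cl1 ((l.ovr e he).F k) (co (tQ.v k) j)) : FL (l k).T)
      (fc (Setoid.comap (l k).p.π (Setoid.ker ((sb (s.lf i).Y fun _ : Fin 1 => p).cellv (c + e - δ) k))))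
      (fc (Setoid.comap (l k).p.π (ln (s.lf i) p c k)) ⊔ (l k).v)
    have h3 : h (fc (Setoid.comap (l k).p.π (Setoid.ker ((sb (s.lf i).Y fun _ : Fin 1 => p).cellv (c + e - δ) k))))
        (fc (Setoid.comap (l k).p.π (ln (s.lf i) p c k)) ⊔ (l k).v) ≤
        h ((fc (cl1 ((l.ovr e he).F k) (co (tQ.v k) j)) : FL (l k).T) ⊔
          fc (Setoid.comap (l k).p.π (Setoid.ker ((sb (s.lf i).Y fun _ : Fin 1 => p).cellv (c + e - δ) k))))
        (fc (Setoid.comap (l k).p.π (ln (s.lf i) p c k)) ⊔ (l k).v) := h_mono le_sup_right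
    have h4 := h_osc (F := (l k).T) (S.dl (c + e - δ) k) (S.dl_pos _ k)
      (fun ω => (sb (s.lf i).Y fun _ : Fin 1 => p).v k ((l k).p.π ω))
      (cl1 ((l.ovr e he).F k) (co (tQ.v k) j) ⊓ (Setoid.comap (l k).p.π (ln (s.lf i) p c k) ⊓ (l k).V))
      (1 + (6 + ((s.lf i).e : ℝ)) * K k) (by positivity) (by
      intro ω ω' b1 b2 b3 b4 _
      have c1 := a0 ω b1
      have c2 := a0 ω' b2
      have hF := hsm ω ω' b1 b2 b3 b4.2.1.1.1
      have hP : f.P k ω = f.P k ω' := a7 ω ω' b1 b2 b3 b4.2.2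
      rw [← hF, ← hsl ω ω' hF, ← hP] at c2
      have c3 := cell_close (F := (l.ovr e he).F k) b4.1 0
      rw [hdl, ← hdD] at c3
      have c4 := par_osc hD hd.le hK0 j p c1.1 c2.1 c1.2 (S.dl_pos δ k) (hbg ω b1).1 (fun q hq =>
        (ln_close (s.lf i) p c k b4.2.1 q hq).trans (S.dl_anti hce k)) c3
      rw [dl_sub] at c4
      exact c4)
    rw [Nat.cast_one, one_mul] at h4
    have h5 : h (fc (Setoid.comap (l k).p.π (Setoid.ker ((sb (s.lf i).Y fun _ : Fin 1 => p).cellv (c + e - δ) k))))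
        ((fc (cl1 ((l.ovr e he).F k) (co (tQ.v k) j)) : FL (l k).T) ⊔
          (fc (Setoid.comap (l k).p.π (ln (s.lf i) p c k)) ⊔ (l k).v)) ≤ (δ0 * e - δ) / 2 * (S.F k).n := h4.trans a2
    show (1 - δ0) * ((l.ovr e he).F k).n ≤ h (fc (cl1 ((l.ovr e he).F k) (co (tQ.v k) j)) : FL ((l.ovr e he).F k))
      (fc (Setoid.comap (l k).p.π (ln (s.lf i) p c k)))
    have h6 : (c + e - δ - c - (δ0 * e - δ) / 2) * (S.F k).n ≤
        h (fc (cl1 ((l.ovr e he).F k) (co (tQ.v k) j)) : FL (l k).T)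
        (fc (Setoid.comap (l k).p.π (ln (s.lf i) p c k)) ⊔ (l k).v) + (δ0 * e - δ) / 2 * (S.F k).n := by
      rw [h2] at h3
      exact (a4.trans h3).trans (add_le_add le_rfl h5)
    have h7 : (1 - δ0) * ((l.ovr e he).F k).n =
        (c + e - δ - c - (δ0 * e - δ) / 2) * (S.F k).n - (δ0 * e - δ) / 2 * (S.F k).n := by
      rw [hnn]
      ring
    rw [h7]
    exact (sub_le_iff_le_add.mpr h6).trans (le_of_eq h1.symm)
  · -- the direction is a function of the line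
    have h1 : h (fc (cl1 ((l.ovr e he).F k) (fun ω => rat (s.lf i) j p k ((l k).p.π ω))) : FL ((l.ovr e he).F k))
        (fc (Setoid.comap (l k).p.π (ln (s.lf i) p c k))) = 0 := by
      apply h_zero
      apply fc_le
      intro ω ω' b1 b2 b3 b4
      have hF := hsm ω ω' b1 b2 b3.2 b4.1.1
      show cell _ (rat (s.lf i) j p k ((l k).p.π ω)) = cell _ (rat (s.lf i) j p k ((l k).p.π ω'))
      unfold rat
      rw [hsl ω ω' hF]
    have h2 : 0 ≤ δ0 * ((l.ovr e he).F k).n := mul_nonneg hδ0.le ((l.ovr e he).F k).pos.le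
    exact (le_of_eq h1).trans h2
  · -- independence
    have h1 : I (fc (cl1 ((l.ovr e he).F k) (fun ω => rat (s.lf i) j p k ((l k).p.π ω))) : FL ((l.ovr e he).F k))
        (fc (cl1 ((l.ovr e he).F k) (tQ.v k))) ⊥ = _ := ovr_I l e he k _ _
    have e1 : (fc (cl1 ((l.ovr e he).F k) (fun ω => rat (s.lf i) j p k ((l k).p.π ω))) : FL (l k).T) =
        (l k).p.map (us (s.lf i) j p e k) := by
      unfold cl1
      rw [hdl]
      rfl
    have h2 := I_chain_right ((l k).p.map (us (s.lf i) j p e k)) ((l k).p.map (qd s (c + e) k))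
      (fc (cl1 ((l.ovr e he).F k) (tQ.v k))) (l k).v
    have h3 : I ((l k).p.map (us (s.lf i) j p e k)) (fc (cl1 ((l.ovr e he).F k) (tQ.v k))) (l k).v ≤
        I ((l k).p.map (us (s.lf i) j p e k)) ((l k).p.map (qd s (c + e) k) ⊔
          fc (cl1 ((l.ovr e he).F k) (tQ.v k))) (l k).v := I_mono_right (le_sup_right.trans le_sup_left)
    have h4 := I_le_h_right ((l k).p.map (us (s.lf i) j p e k)) (fc (cl1 ((l.ovr e he).F k) (tQ.v k)))
      ((l k).p.map (qd s (c + e) k) ⊔ (l k).v)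
    have h5 := h_osc (F := (l k).T) (dlF ((l.ovr e he).F k) 1) (dlF_pos _ 1) (tQ.v k)
      (Setoid.comap (l k).p.π (Setoid.ker (s.Q.cellv (c + e) k)) ⊓ (l k).V) (1 + 4 * K k) (by positivity) (by
      intro ω ω' b1 b2 b3 b4 i'
      have c1 := a0 ω b1
      have c2 := a0 ω' b2
      have hP : f.P k ω = f.P k ω' := a7 ω ω' b1 b2 b3 b4.2
      have hb : |s.Q.v k ((l k).p.π ω) i' - s.Q.v k ((l k).p.π ω') i'| ≤ S.dl (c + e) k :=
        abs_sub_le_of_floor_eq hd (congrFun b4.1 i')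
      rw [← hP] at c2
      have z1 : |S.dl c k * tQ.v k ω i' - (s.Q.v k ((l k).p.π ω) i' - (f.P k ω i').coeff 0)| ≤
        2 * K k * S.dl (c + e) k := c1.1.zm i'
      have z2 : |S.dl c k * tQ.v k ω' i' - (s.Q.v k ((l k).p.π ω') i' - (f.P k ω i').coeff 0)| ≤
        2 * K k * S.dl (c + e) k := c2.1.zm i'
      have z3 : S.dl c k * (tQ.v k ω i' - tQ.v k ω' i') =
        (S.dl c k * tQ.v k ω i' - (s.Q.v k ((l k).p.π ω) i' - (f.P k ω i').coeff 0)) +
        -(S.dl c k * tQ.v k ω' i' - (s.Q.v k ((l k).p.π ω') i' - (f.P k ω i').coeff 0)) +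
        (s.Q.v k ((l k).p.π ω) i' - s.Q.v k ((l k).p.π ω') i') := by ring
      have z4 : |S.dl c k * (tQ.v k ω i' - tQ.v k ω' i')| ≤ (1 + 4 * K k) * S.dl (c + e) k := by
        rw [z3]
        refine (abs_add_three _ _ _).trans ?_
        rw [abs_neg]
        linarith
      rw [abs_mul, abs_of_pos hD] at z4
      rw [hdl, ← hdD, ← mul_div_assoc, le_div_iff₀ hD, mul_comm]
      exact z4)
    show I (fc (cl1 ((l.ovr e he).F k) (fun ω => rat (s.lf i) j p k ((l k).p.π ω))) : FL ((l.ovr e he).F k))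
        (fc (cl1 ((l.ovr e he).F k) (tQ.v k))) ⊥ ≤ δ0 * ((l.ovr e he).F k).n
    have h1' : I (fc (cl1 ((l.ovr e he).F k) (fun ω => rat (s.lf i) j p k ((l k).p.π ω))) : FL (l k).T)
        (fc (cl1 ((l.ovr e he).F k) (tQ.v k))) (l k).v =
        I ((l k).p.map (us (s.lf i) j p e k)) (fc (cl1 ((l.ovr e he).F k) (tQ.v k))) (l k).v := by rw [e1]
    refine (le_of_eq (h1.trans h1')).trans ?_
    rw [hnn]
    have h6 : h (fc (cl1 ((l.ovr e he).F k) (tQ.v k)) : FL (l k).T) ((l k).p.map (qd s (c + e) k) ⊔ (l k).v) ≤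
        M * Real.logb 2 (1 + 4 * K k + 2) := h5
    have h7 : (M : ℝ) * Real.logb 2 (1 + 4 * K k + 2) ≤ M * ((δ0 * e - κ) / (M + 1) * (S.F k).n) :=
      mul_le_mul_of_nonneg_left a3 (Nat.cast_nonneg M)
    have h8 : (M : ℝ) * ((δ0 * e - κ) / (M + 1) * (S.F k).n) ≤ (δ0 * e - κ) * (S.F k).n := by
      have h9 : (M : ℝ) * ((δ0 * e - κ) / (M + 1) * (S.F k).n) = (M / (M + 1)) * ((δ0 * e - κ) * (S.F k).n) := by
        field_simp
      rw [h9]
      have h10 : (M : ℝ) / (M + 1) ≤ 1 := by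
        rw [div_le_one hM]
        linarith
      have h11 : 0 ≤ (δ0 * e - κ) * (S.F k).n := mul_nonneg (by linarith) hn.le
      nlinarith
    have h12 : δ0 * (e * (S.F k).n) = κ * (S.F k).n + (δ0 * e - κ) * (S.F k).n := by ring
    rw [h12]
    exact h3.trans ((le_of_eq h2).trans (add_le_add a8 (h4.trans (h6.trans (h7.trans h8)))))

end

end Pool.Agent.Helper67.SAT
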