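import Pool.Agent.Helper67.SAT.Low

/-! SAT: oscillation estimates for two points of one line in a zoom (deterministic). -/

set_option autoImplicit false

namespace Pool.Agent.Helper67.SAT

open Finset Filter Topology Pool.Agent.Helper69.RK Pool.Agent.Helper31.EC Pool.Agent.Helper31.EC.Sp
open Pool.Agent.Helper40.EL Pool.Agent.Helper89.LX Pool.Agent.Helper84.MT Pool.Agent.Helper36.AM

noncomputable section

/-- entropy of cells by the oscillation, any scale -/
theorem h_osc {F : FSp} {N : ℕ} (d : ℝ) (hd : 0 < d) (X : F.Ω → Fin N → ℝ) (B : Setoid F.Ω) (K : ℝ) (hK : 0 ≤ K)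
    (hh : ∀ ω ω', F.μ ω ≠ 0 → F.μ ω' ≠ 0 → F.Z ω ω' → B ω ω' → ∀ i, |X ω i - X ω' i| ≤ K * d) :
    h (fc (Setoid.ker fun ω => cell d (X ω))) (fc B) ≤ N * Real.logb 2 (K + 2) := by
  rw [h_fc]
  have h1 := F.e_int_le (fun ω => cell d (X ω)) (B ⊓ F.Z) (K + 1) (by linarith) (by
    intro ω ω' a b c i
    exact floor_diff hd (hh ω ω' a b c.2 c.1 i))
  have e1 : K + 1 + 1 = K + 2 := by ring
  rw [e1] at h1
  exact h1

/-- the values at one point: `a` = point of the zoom, `b` = point, `P` = frame, `G + σ Y` = leaf -/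
structure Vl {N m : ℕ} (D d K : ℝ) (P G : Fin N → ℝ) (σ : Fin N → Fin m → ℝ) (a b : Fin N → ℝ) (Y : Fin m → ℝ) : Prop where
  zm : ∀ i, |D * a i - (b i - P i)| ≤ 2 * K * d
  lf : ∀ i, |b i - (G i + ∑ q, σ i q * Y q)| ≤ K * d

variable {N m : ℕ} {D d K : ℝ} {P G : Fin N → ℝ} {σ : Fin N → Fin m → ℝ} {a a' b b' : Fin N → ℝ} {Y Y' : Fin m → ℝ}

theorem abs4 (x y z w : ℝ) : |x + y + z + w| ≤ |x| + |y| + |z| + |w| :=
  (abs_add_le _ _).trans (add_le_add (abs_add_three x y z) le_rfl)

/-- the quotient is constant on the line -/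
theorem quo_osc (hD : 0 < D) (hd : 0 ≤ d) (hK : 0 ≤ K) (j : Fin N) (p : Fin m) (h : Vl D d K P G σ a b Y)
    (h' : Vl D d K P G σ a' b' Y') (hσ : ∀ i q, |σ i q| ≤ K) (hp : σ j p ≠ 0) (hmax : ∀ i, |σ i p| ≤ |σ j p|)
    (hY : ∀ q, q ≠ p → |Y q - Y' q| ≤ d) (i : Fin N) :
    |quo a (fun i => σ i p / σ j p) j i - quo a' (fun i => σ i p / σ j p) j i| ≤ (12 + 2 * m) * K * (d / D) := by
  set u : ℝ := σ i p / σ j p with hu
  have hu1 : |u| ≤ 1 := by
    rw [hu, abs_div, div_le_one (abs_pos.mpr hp)]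
    exact hmax i
  have e1 : quo a (fun i => σ i p / σ j p) j i - quo a' (fun i => σ i p / σ j p) j i =
      (a i - a' i) - u * (a j - a' j) := by
    unfold quo
    ring
  have e2 : D * ((a i - a' i) - u * (a j - a' j)) = (D * a i - (b i - P i)) + -(D * a' i - (b' i - P i)) +
      (-u * ((D * a j - (b j - P j)) - (D * a' j - (b' j - P j)))) + ((b i - b' i) - u * (b j - b' j)) := by ring
  have e3 : (b i - b' i) - u * (b j - b' j) = (b i - (G i + ∑ q, σ i q * Y q)) + -(b' i - (G i + ∑ q, σ i q * Y' q)) +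
      (-u * ((b j - (G j + ∑ q, σ j q * Y q)) - (b' j - (G j + ∑ q, σ j q * Y' q)))) +
      ∑ q, (σ i q - u * σ j q) * (Y q - Y' q) := by
    have e4 : ∑ q, (σ i q - u * σ j q) * (Y q - Y' q) = (∑ q, σ i q * Y q - ∑ q, σ i q * Y' q) -
        u * (∑ q, σ j q * Y q - ∑ q, σ j q * Y' q) := by
      rw [← Finset.sum_sub_distrib, ← Finset.sum_sub_distrib, Finset.mul_sum, ← Finset.sum_sub_distrib]
      apply Finset.sum_congr rfl
      intro q _
      ring
    rw [e4]
    ring
  have h5 : |∑ q, (σ i q - u * σ j q) * (Y q - Y' q)| ≤ m * (2 * K * d) := by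
    refine (Finset.abs_sum_le_sum_abs _ _).trans ?_
    have h6 : ∀ q ∈ (Finset.univ : Finset (Fin m)), |(σ i q - u * σ j q) * (Y q - Y' q)| ≤ 2 * K * d := by
      intro q _
      by_cases hq : q = p
      · rw [hq]
        have h7 : σ i p - u * σ j p = 0 := by
          rw [hu, div_mul_cancel₀ _ hp, sub_self]
        rw [h7, zero_mul, abs_zero]
        positivity
      · rw [abs_mul]
        have h8 : |σ i q - u * σ j q| ≤ 2 * K := by
          refine (abs_sub _ _).trans ?_
          rw [abs_mul]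
          have h9 := hσ i q
          have h10 := hσ j q
          nlinarith [abs_nonneg u, abs_nonneg (σ j q)]
        exact mul_le_mul h8 (hY q hq) (abs_nonneg _) (by positivity)
    refine (Finset.sum_le_sum h6).trans (le_of_eq ?_)
    rw [Finset.sum_const, Finset.card_univ, Fintype.card_fin, nsmul_eq_mul]
  have hz : ∀ x y : ℝ, ∀ B : ℝ, |x| ≤ B → |y| ≤ B → |-u * (x - y)| ≤ 2 * B := by
    intro x y B hx hy
    rw [abs_mul, abs_neg]
    have h9 : |x - y| ≤ 2 * B := (abs_sub _ _).trans (by linarith)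
    nlinarith [abs_nonneg u, abs_nonneg (x - y)]
  have h11 : |D * ((a i - a' i) - u * (a j - a' j))| ≤ (12 + 2 * m) * K * d := by
    rw [e2]
    refine (abs4 _ _ _ _).trans ?_
    have b1 := h.zm i
    have b2 : |-(D * a' i - (b' i - P i))| ≤ 2 * K * d := by
      rw [abs_neg]
      exact h'.zm i
    have b3 := hz _ _ _ (h.zm j) (h'.zm j)
    have b4 : |(b i - b' i) - u * (b j - b' j)| ≤ 4 * K * d + m * (2 * K * d) := by
      rw [e3]
      refine (abs4 _ _ _ _).trans ?_
      have c1 := h.lf i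
      have c2 : |-(b' i - (G i + ∑ q, σ i q * Y' q))| ≤ K * d := by
        rw [abs_neg]
        exact h'.lf i
      have c3 := hz _ _ _ (h.lf j) (h'.lf j)
      linarith
    linarith
  rw [abs_mul, abs_of_pos hD] at h11
  rw [e1, ← mul_div_assoc, le_div_iff₀ hD, mul_comm]
  exact h11

/-- the parameter is a function of the coordinate `j` of the point of the zoom and of the line -/
theorem par_osc (hD : 0 < D) (hd : 0 ≤ d) (hK : 0 ≤ K) (j : Fin N) (p : Fin m) (h : Vl D d K P G σ a b Y)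
    (h' : Vl D d K P G σ a' b' Y') (hσ : ∀ i q, |σ i q| ≤ K) {η : ℝ} (hη : 0 < η) (hp : η ≤ |σ j p|)
    (hY : ∀ q, q ≠ p → |Y q - Y' q| ≤ d) (ha : |a j - a' j| ≤ d / D) : |Y p - Y' p| ≤ (1 + (6 + m) * K) * (d / η) := by
  classical
  have e1 : σ j p * (Y p - Y' p) = (b j - b' j) + -(b j - (G j + ∑ q, σ j q * Y q)) +
      (b' j - (G j + ∑ q, σ j q * Y' q)) + -∑ q ∈ Finset.univ.erase p, σ j q * (Y q - Y' q) := by
    have e2 : ∑ q, σ j q * (Y q - Y' q) = σ j p * (Y p - Y' p) + ∑ q ∈ Finset.univ.erase p, σ j q * (Y q - Y' q) :=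
      (Finset.add_sum_erase _ _ (Finset.mem_univ p)).symm
    have e3 : ∑ q, σ j q * (Y q - Y' q) = ∑ q, σ j q * Y q - ∑ q, σ j q * Y' q := by
      rw [← Finset.sum_sub_distrib]
      apply Finset.sum_congr rfl
      intro q _
      ring
    linarith
  have h1 : |∑ q ∈ Finset.univ.erase p, σ j q * (Y q - Y' q)| ≤ m * (K * d) := by
    refine (Finset.abs_sum_le_sum_abs _ _).trans ?_
    have h6 : ∀ q ∈ Finset.univ.erase p, |σ j q * (Y q - Y' q)| ≤ K * d := by
      intro q hq
      rw [abs_mul]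
      exact mul_le_mul (hσ j q) (hY q (Finset.ne_of_mem_erase hq)) (abs_nonneg _) hK
    refine (Finset.sum_le_sum h6).trans ?_
    rw [Finset.sum_const, nsmul_eq_mul]
    apply mul_le_mul_of_nonneg_right _ (by positivity)
    have h7 := Finset.card_le_card (Finset.erase_subset p (Finset.univ : Finset (Fin m)))
    rw [Finset.card_univ, Fintype.card_fin] at h7
    exact_mod_cast h7
  have h2 : |b j - b' j| ≤ d + 4 * K * d := by
    have e4 : b j - b' j = D * (a j - a' j) + -(D * a j - (b j - P j)) + (D * a' j - (b' j - P j)) := by ring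
    rw [e4]
    refine (abs_add_three _ _ _).trans ?_
    rw [abs_neg, abs_mul, abs_of_pos hD]
    have c1 : D * |a j - a' j| ≤ d := by
      rw [le_div_iff₀ hD] at ha
      linarith
    have c2 := h.zm j
    have c3 := h'.zm j
    linarith
  have h3 : |σ j p * (Y p - Y' p)| ≤ (1 + (6 + m) * K) * d := by
    rw [e1]
    refine (abs4 _ _ _ _).trans ?_
    rw [abs_neg, abs_neg]
    have c1 := h.lf j
    have c2 := h'.lf j
    linarith
  rw [abs_mul] at h3
  rw [← mul_div_assoc, le_div_iff₀ hη]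
  have h4 : η * |Y p - Y' p| ≤ |σ j p| * |Y p - Y' p| := mul_le_mul_of_nonneg_right hp (abs_nonneg _)
  linarith

/-- the point of the zoom is a function of the digits of the point -/
theorem zm_osc (hD : 0 < D) (h : Vl D d K P G σ a b Y) (h' : Vl D d K P G σ a' b' Y') (i : Fin N)
    (hb : |b i - b' i| ≤ d) : |a i - a' i| ≤ (1 + 4 * K) * (d / D) := by
  have e1 : D * (a i - a' i) = (D * a i - (b i - P i)) + -(D * a' i - (b' i - P i)) + (b i - b' i) := by ring
  have h1 : |D * (a i - a' i)| ≤ (1 + 4 * K) * d := by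
    rw [e1]
    refine (abs_add_three _ _ _).trans ?_
    rw [abs_neg]
    have c1 := h.zm i
    have c2 := h'.zm i
    linarith
  rw [abs_mul, abs_of_pos hD] at h1
  rw [← mul_div_assoc, le_div_iff₀ hD, mul_comm]
  exact h1

end

end Pool.Agent.Helper67.SAT
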