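import Pool.Agent.Helper67.SAT.Ok

/-! SAT: a homogeneous class in dimension at least two has a weight larger than one. -/

set_option autoImplicit false

namespace Pool.Agent.Helper67.SAT

open Finset Filter Topology Pool.Agent.Helper69.RK Pool.Agent.Helper31.EC Pool.Agent.Helper31.EC.Sp
open Pool.Agent.Helper40.EL Pool.Agent.Helper89.LX Pool.Agent.Helper84.MT Pool.Agent.Helper36.AM
open Pool.Agent.Helper49.MD (dlF)

noncomputable section

variable {S : Sp} {M : ℕ} {E E' : ℕ → ℕ} {ι ι' : Type}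

/-- entropy of the direction -/
theorem us_H {Q : S.VV M} (lf : Leaf S Q E) (j : Fin M) (p : Fin lf.e) {δ e : ℝ}
    (hbig : ∀ᶠ k in UF, ∀ ω, (S.F k).μ ω ≠ 0 → Big lf j p δ k ω) (he : 0 < e) :
    ∀ᶠ k in UF, H (us lf j p e k) ≤ ((M : ℝ) + 1) * e * (S.F k).n := by
  have h1 : ∀ᶠ k in UF, 2 * (M : ℝ) / e ≤ (S.F k).n := S.lim.eventually_ge_atTop _
  filter_upwards [hbig, h1] with k a1 a2
  have hn := (S.F k).pos
  have hd := S.dl_pos e k
  have hb : ∀ ω, (S.F k).μ ω ≠ 0 → ∀ i, |rat lf j p k ω i| ≤ 1 := by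
    intro ω hω i
    have h2 := a1 ω hω
    have h3 : 0 < |sl lf k ω j p| := (S.dl_pos δ k).trans_le h2.1
    show |sl lf k ω i p / sl lf k ω j p| ≤ 1
    rw [abs_div, div_le_one h3]
    exact h2.2 i
  have h2 := h_osc (F := S.F k) (S.dl e k) hd (rat lf j p k) ⊤ (2 / S.dl e k) (by positivity) (by
    intro ω ω' b1 b2 _ _ i
    rw [div_mul_cancel₀ _ hd.ne']
    refine (abs_sub _ _).trans ?_
    have c1 := hb ω b1 i
    have c2 := hb ω' b2 i
    linarith)
  rw [fc_top, h_bot] at h2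
  have h3 : 2 / S.dl e k + 2 ≤ 4 / S.dl e k := by
    have h4 : S.dl e k ≤ 1 := by
      have := S.dl_anti he.le k
      rwa [S.dl_zero] at this
    have h5 : 1 ≤ 1 / S.dl e k := by
      rw [le_div_iff₀ hd]
      linarith
    have e1 : 2 / S.dl e k = 2 * (1 / S.dl e k) := by ring
    have e2 : 4 / S.dl e k = 4 * (1 / S.dl e k) := by ring
    rw [e1, e2]
    linarith
  have h4 : Real.logb 2 (4 / S.dl e k) = 2 + e * (S.F k).n := by
    have e1 : 4 / S.dl e k = (2 : ℝ) ^ (2 + e * (S.F k).n) := by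
      unfold Sp.dl
      rw [Real.rpow_add (by norm_num), div_eq_mul_inv, ← Real.rpow_neg (by norm_num), neg_neg]
      norm_num
    rw [e1, Real.logb_rpow (by norm_num) (by norm_num)]
  have h5 : Real.logb 2 (2 / S.dl e k + 2) ≤ 2 + e * (S.F k).n := by
    rw [← h4]
    exact Real.logb_le_logb_of_le (by norm_num) (by positivity) h3
  have h6 : (M : ℝ) * Real.logb 2 (2 / S.dl e k + 2) ≤ M * (2 + e * (S.F k).n) :=
    mul_le_mul_of_nonneg_left h5 (Nat.cast_nonneg M)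
  rw [div_le_iff₀ he] at a2
  refine h2.trans (h6.trans ?_)
  nlinarith

variable {g r : ℕ} {Cl : MCl (M + 1)} {w : Fin (M + 1) → ℝ} {ρ : ℝ}
  {TT : ∀ S : Sp, MSys S (M + 1) (lin g) (Fin r) → Prop}

/-- NOT ALL WEIGHTS ARE ONE -/
theorem sat (hP : PRQ M) (hT : Hom M Cl g r w ρ TT) (hM : 1 ≤ M) : 1 < w (Fin.last M) := by
  by_contra hw
  rw [not_lt] at hw
  have hw1 : ∀ j, w j = 1 := fun j => le_antisymm ((hT.mono (Fin.le_last j)).trans hw)
    (by rw [← hT.one]; exact hT.mono (Fin.zero_le j))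
  have hρ := hT.rho
  obtain ⟨δ0, hδ0, hun⟩ := unif hP hT.dg hT.con hT.hull (θ := ρ / 2) (by linarith) (defic hT)
  obtain ⟨L0, hL0⟩ := exists_nat_gt (2 * ((M : ℝ) + 2) / δ0)
  set L : ℕ := L0 + 2 with hLdef
  have hL2 : 2 ≤ L := by omega
  have hLr : (0 : ℝ) < L := by
    have : 0 < L := by omega
    exact_mod_cast this
  set e : ℝ := 1 / L with hedef
  have he : 0 < e := by positivity
  have he1 : e ≤ 1 := by
    rw [hedef, div_le_one hLr]
    have : 1 ≤ L := by omega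
    exact_mod_cast this
  have hB : ((M : ℝ) + 2) * e < ((L : ℝ) - 1) * (δ0 * e / 2) := by
    have h1 : 2 * ((M : ℝ) + 2) < δ0 * (L - 1) := by
      rw [div_lt_iff₀ hδ0] at hL0
      have h2 : (L : ℝ) - 1 = L0 + 1 := by
        rw [hLdef]
        push_cast
        ring
      rw [h2]
      nlinarith
    nlinarith
  obtain ⟨δ, hδ, hδe, hδδ⟩ : ∃ δ : ℝ, 0 < δ ∧ δ ≤ e ∧ δ < δ0 * e := by
    refine ⟨min e (δ0 * e / 2), lt_min he (by positivity), min_le_left _ _, (min_le_right _ _).trans_lt ?_⟩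
    have : 0 < δ0 * e := by positivity
    linarith
  obtain ⟨S, s, i, j, p, hs, hbig⟩ := exists_big hT hM hw hδ (hδe.trans he1)
  have hwq : ∀ q : ℕ, q < L → w (Fin.last M) * ((q : ℝ) / L) < 1 := by
    intro q hq
    rw [hw1, one_mul, div_lt_one hLr]
    exact_mod_cast hq
  have hq0 : ∀ q : ℕ, 1 ≤ q → (0 : ℝ) < (q : ℝ) / L := by
    intro q hq
    have : (0 : ℝ) < q := by exact_mod_cast hq
    positivity
  have hbox : ∀ q : ℕ, ∃ l : Lab S, 1 ≤ q → q < L → ∃ _ : Frm s.Q l (fun j => w j * ((q : ℝ) / L)),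
      s.IsKap ((q : ℝ) / L) l := by
    intro q
    by_cases hq : 1 ≤ q ∧ q < L
    · obtain ⟨l, f, h3⟩ := hT.box S s hs _ (hq0 q hq.1) (hwq q hq.2)
      exact ⟨l, fun _ _ => ⟨f, h3⟩⟩
    · exact ⟨fun k => FLab.triv (S.F k), fun h1 h2 => absurd ⟨h1, h2⟩ hq⟩
  choose l hl using hbox
  have hu := us_H (s.lf i) j p hbig he
  obtain ⟨q, hq1, hq2, hI⟩ := exists_window s (us (s.lf i) j p e) hL2 l
    (fun q h1 h2 => (hl q h1 h2).choose_spec) hB (by
    filter_upwards [hu] with k hk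
    refine hk.trans (le_of_eq ?_)
    push_cast
    ring)
  obtain ⟨f, hK⟩ := hl q hq1 hq2
  have hc := hq0 q hq1
  have hce : (q : ℝ) / L + e ≤ 1 := by
    rw [hedef, ← add_div, div_le_one hLr]
    exact_mod_cast hq2
  obtain ⟨t, hg, ht⟩ := hT.zoom S s hs _ hc (hwq q hq2) (l q) f hK e he (by rw [hw1, one_mul]; exact hce)
  have e1 : ((q : ℝ) + 1) / L = (q : ℝ) / L + e := by rw [hedef, add_div]
  rw [e1] at hI
  have h1 := dat_ok s i (aff_of_hom hT hw hs i) j p hbig hc he hce hδ.le hδe hK.1 f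
    (fun j => by rw [hw1, one_mul]) t.Q hg.pt (κ := δ0 * e / 2) hδδ (by
      have : 0 < δ0 * e := by positivity
      linarith) hδ0 hI
  obtain ⟨k, a1, a2⟩ := (h1.and (hun _ t ht)).exists
  exact a2 _ a1

end

end Pool.Agent.Helper67.SAT
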