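import Pool.Agent.Helper67.SAT.Evt

/-! SAT: telescoping. A function `u` of the state; the information of `u` about the digits of the point in the windows
`[q e, (q+1) e]` over the labels of the windows is summable; so it is small for one of them. -/

set_option autoImplicit false

namespace Pool.Agent.Helper67.SAT

open Finset Filter Topology Pool.Agent.Helper69.RK Pool.Agent.Helper31.EC Pool.Agent.Helper31.EC.Sp
open Pool.Agent.Helper40.EL Pool.Agent.Helper89.LX Pool.Agent.Helper84.MT Pool.Agent.Helper36.AM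

noncomputable section

variable {S : Sp} {M : ℕ} {E : ℕ → ℕ} {ι : Type}

/-- the digits of the point -/
def qd (s : MSys S M E ι) (c : ℝ) (k : ℕ) : FL (S.F k) := fc (Setoid.ker (s.Q.cellv c k))

/-- the information of `u` about a label -/
def psi (l : Lab S) (u : Part S) (k : ℕ) : ℝ := I ((l k).p.map (u k)) (l k).v ⊥

/-- one step -/
theorem step (s : MSys S M E ι) (u : Part S) {c c' : ℝ} (hcc : c ≤ c') (hc : 0 ≤ c') (hc1 : c' ≤ 1) {l l' : Lab S}
    (hl : s.DMc c l) (hl' : s.IsKap c' l') : ∃ f : ℕ → ℝ, Nul S f ∧ ∀ k,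
      I ((l k).p.map (u k)) ((l k).v ⊔ (l k).p.map (qd s c' k)) ⊥ ≤ psi l' u k + f k := by
  set l1 : Lab S := l.addW fun k => Setoid.comap (l k).p.π (Setoid.ker (s.Q.cellv c' k)) with hl1
  have h1 : l1.DMf (s.cnd c') := by
    apply Lab.DMf.addW (hl.mono hcc)
    intro i
    have h2 := s.dg_cnd hc hc1 i
    refine Nul.of_le h2 (Eventually.of_forall fun k => h_nonneg _ _) (Eventually.of_forall fun k => ?_)
    have h3 := (l k).p.h_map (qd s c' k) (s.cnd c' i k)
    refine le_trans ?_ (le_of_eq h3)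
    exact h_anti le_sup_right
  refine ⟨_, Lab.IsMaxf.univ (i := (none : Option ι)) hl' h1 (pcd_Bd s.Q), fun k => ?_⟩
  have a1 := ((l' k).am (l1 k)).p2.I_map ((l1 k).p.map (u k)) (l1 k).v ⊥
  rw [((l' k).am (l1 k)).p2.map_bot, ← (l' k).am_map (l1 k) (u k)] at a1
  have a2 : I ((l k).p.map (u k)) ((l k).v ⊔ (l k).p.map (qd s c' k)) ⊥ ≤
      I (((l' k).am (l1 k)).p1.map ((l' k).p.map (u k))) (((l' k).am (l1 k)).p2.map (l1 k).v) ⊥ := le_of_eq a1.symm
  refine a2.trans ?_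
  have a3 := I_chain (((l' k).am (l1 k)).p1.map (l' k).v) (((l' k).am (l1 k)).p2.map (l1 k).v)
    (((l' k).am (l1 k)).p1.map ((l' k).p.map (u k))) ⊥
  have a4 : I (((l' k).am (l1 k)).p1.map ((l' k).p.map (u k))) (((l' k).am (l1 k)).p2.map (l1 k).v) ⊥ ≤
      I (((l' k).am (l1 k)).p1.map (l' k).v ⊔ ((l' k).am (l1 k)).p2.map (l1 k).v)
        (((l' k).am (l1 k)).p1.map ((l' k).p.map (u k))) ⊥ := by
    rw [I_comm]
    exact I_mono_left (le_sup_right.trans le_sup_left)
  have a5 : I (((l' k).am (l1 k)).p1.map (l' k).v) (((l' k).am (l1 k)).p1.map ((l' k).p.map (u k))) ⊥ =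
      psi l' u k := by
    have h3 := ((l' k).am (l1 k)).p1.I_map (l' k).v ((l' k).p.map (u k)) ⊥
    rw [((l' k).am (l1 k)).p1.map_bot] at h3
    rw [h3, I_comm]
    rfl
  have a6 : I (((l' k).am (l1 k)).p2.map (l1 k).v) (((l' k).am (l1 k)).p1.map ((l' k).p.map (u k)))
      (((l' k).am (l1 k)).p1.map (l' k).v ⊔ ⊥) ≤
      I (((l' k).am (l1 k)).p2.map (l1 k).v) (((l' k).am (l1 k)).p1.map (l' k).p.top)
        (((l' k).am (l1 k)).p1.map (l' k).v) := by
    rw [sup_bot_eq]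
    exact I_mono_right ((((l' k).am (l1 k)).p1.map_mono ((l' k).p.map_le_top (u k))).trans le_sup_left)
  linarith

/-- ONE OF THE WINDOWS -/
theorem exists_window (s : MSys S M E ι) (u : Part S) {L : ℕ} (hL : 2 ≤ L) (l : ℕ → Lab S)
    (hl : ∀ q, 1 ≤ q → q < L → s.IsKap ((q : ℝ) / L) (l q)) {κ B : ℝ} (hB : B < ((L : ℝ) - 1) * κ)
    (hu : ∀ᶠ k in UF, H (u k) ≤ B * (S.F k).n) : ∃ q, 1 ≤ q ∧ q < L ∧ ∀ᶠ k in UF,
      I ((l q k).p.map (u k)) ((l q k).p.map (qd s (((q : ℝ) + 1) / L) k)) (l q k).v ≤ κ * (S.F k).n := by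
  by_contra hc
  have hL0 : (0 : ℝ) < L := by
    have : (0 : ℕ) < L := by omega
    exact_mod_cast this
  have h1 : ∀ q, 1 ≤ q → q < L → ∀ᶠ k in UF, κ * (S.F k).n <
      I ((l q k).p.map (u k)) ((l q k).p.map (qd s (((q : ℝ) + 1) / L) k)) (l q k).v := by
    intro q h2 h3
    filter_upwards [UF_not fun h => hc ⟨q, h2, h3, h⟩] with k hk
    exact not_le.mp hk
  have h2 : ∀ q, 1 ≤ q → q < L → ∀ ε : ℝ, 0 < ε → ∀ᶠ k in UF, (((q : ℝ) - 1) * κ - ε) * (S.F k).n ≤ psi (l q) u k := by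
    intro q hq
    induction q, hq using Nat.le_induction with
    | base =>
      intro _ ε hε
      refine Eventually.of_forall fun k => ?_
      have h3 : 0 ≤ psi (l 1) u k := I_nonneg _ _ _
      have h4 := (S.F k).pos
      have h5 : (((1 : ℕ) : ℝ) - 1) * κ - ε ≤ 0 := by
        push_cast
        linarith
      nlinarith
    | succ q hq ih =>
      intro hq1 ε hε
      have hq0 : q < L := by omega
      have hc1 : ((q : ℝ) + 1) / L ≤ 1 := by
        rw [div_le_one hL0]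
        exact_mod_cast hq1.le
      have e1 : ((q + 1 : ℕ) : ℝ) = (q : ℝ) + 1 := by push_cast; ring
      have hK := hl (q + 1) (by omega) hq1
      rw [e1] at hK
      obtain ⟨f, hf, h3⟩ := step s u (c := (q : ℝ) / L) (c' := ((q : ℝ) + 1) / L)
        (div_le_div_of_nonneg_right (by linarith) hL0.le) (by positivity) hc1 (hl q hq hq0).1 hK
      have hf' : Tendsto (fun k => f k / (S.F k).n) UF (𝓝 0) := hf
      filter_upwards [ih hq0 (ε / 2) (by linarith), h1 q hq hq0,
        hf'.eventually (gt_mem_nhds (show (0 : ℝ) < ε / 2 by linarith))] with k a1 a2 a3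
      have hn := (S.F k).pos
      rw [div_lt_iff₀ hn] at a3
      have a4 := h3 k
      have a5 := I_chain_right ((l q k).p.map (u k)) (l q k).v ((l q k).p.map (qd s (((q : ℝ) + 1) / L) k)) ⊥
      rw [sup_bot_eq] at a5
      have a6 : psi (l q) u k = I ((l q k).p.map (u k)) (l q k).v ⊥ := rfl
      rw [e1]
      nlinarith
  obtain ⟨q, rfl⟩ : ∃ q, L = q + 1 := ⟨L - 1, by omega⟩
  have hq : 1 ≤ q := by omega
  have e1 : ((q + 1 : ℕ) : ℝ) = (q : ℝ) + 1 := by push_cast; ring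
  have h3 := h2 q hq (by omega) (((q : ℝ) * κ - B) / 2) (by
    rw [e1] at hB
    linarith)
  have h4 : ∀ᶠ k in UF, False := by
    filter_upwards [h3, h1 q hq (by omega), hu] with k a1 a2 a3
    have hn := (S.F k).pos
    have a5 := I_chain_right ((l q k).p.map (u k)) (l q k).v
      ((l q k).p.map (qd s (((q : ℝ) + 1) / ((q + 1 : ℕ) : ℝ)) k)) ⊥
    rw [sup_bot_eq] at a5
    have a6 : psi (l q) u k = I ((l q k).p.map (u k)) (l q k).v ⊥ := rfl
    have a7 := I_le_h_left ((l q k).p.map (u k)) ((l q k).v ⊔ (l q k).p.map (qd s (((q : ℝ) + 1) / ((q + 1 : ℕ) : ℝ)) k)) ⊥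
    have a8 : h ((l q k).p.map (u k)) ⊥ = H (u k) := by rw [h_bot, (l q k).p.H_map]
    rw [e1] at hB
    nlinarith
  exact h4.exists.choose_spec

end

end Pool.Agent.Helper67.SAT
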