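import Pool.Agent.Helper67.SAT.Sat
import Pool.Agent.Helper13.AM.BTop

/-! SAT in the form of helper13's `ST_SAT` (case `n = 0` of BLK). -/

set_option autoImplicit false

namespace Pool.Agent.Helper67.SAT

open Pool.Agent.Helper84.MT

/-- `ST_SAT` from the row PR -/
theorem st_sat (M : ℕ) (hP : ST M → PRQ M) : Helper13.AM.ST_SAT M :=
  fun hst _ _ _ _ _ _ hT hM => sat (hP (hst M (Nat.lt_succ_self M))) hT hM

end Pool.Agent.Helper67.SAT
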