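import Pool.Agent.Helper67.SAT.Osc

/-! SAT: the data of a zoom are correct. -/

set_option autoImplicit false

namespace Pool.Agent.Helper67.SAT

open Finset Filter Topology Pool.Agent.Helper69.RK Pool.Agent.Helper31.EC Pool.Agent.Helper31.EC.Sp
open Pool.Agent.Helper40.EL Pool.Agent.Helper89.LX Pool.Agent.Helper84.MT Pool.Agent.Helper36.AM
open Pool.Agent.Helper49.MD (dlF)

noncomputable section

variable {S : Sp} {M : ℕ} {E E' : ℕ → ℕ} {ι ι' : Type}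

/-- the direction -/
def rat {Q : S.VV M} (lf : Leaf S Q E) (j : Fin M) (p : Fin lf.e) (k : ℕ) (ω : (S.F k).Ω) : Fin M → ℝ :=
  fun i => sl lf k ω i p / sl lf k ω j p

/-- the digits of the direction -/
def us {Q : S.VV M} (lf : Leaf S Q E) (j : Fin M) (p : Fin lf.e) (e : ℝ) : Part S := fun k =>
  fc (Setoid.ker fun ω => cell (S.dl e k) (rat lf j p k ω))

/-- the data of a zoom -/
def dat {Q : S.VV M} (lf : Leaf S Q E) (j : Fin M) (p : Fin lf.e) (l : Lab S) (c e : ℝ) (he : 0 < e) (k : ℕ) :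
    Dat ((l.ovr e he).F k) M where
  T := (l.ovr e he).F k
  p := (FLab.triv ((l.ovr e he).F k)).p
  hn := rfl
  U := fun ω => rat lf j p k ((l k).p.π ω)
  La := Setoid.comap (l k).p.π (ln lf p c k)
  j := j

theorem eval_const {N : ℕ} (P : MvPolynomial (Fin N) ℝ) {c : ℝ} (hc : 0 < c)
    (h : ∀ a ∈ P.support, a ≠ 0 → ∑ i, (a i : ℝ) * c < c) (x : Fin N → ℝ) : MvPolynomial.eval x P = P.coeff 0 := by
  classical
  rw [MvPolynomial.eval_eq', Finset.sum_eq_single 0]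
  · simp
  · intro a ha h0
    exfalso
    have h1 := h a ha h0
    obtain ⟨i, hi⟩ : ∃ i, a i ≠ 0 := by
      by_contra hn
      push Not at hn
      exact h0 (Finsupp.ext hn)
    have h2 : (a i : ℝ) * c ≤ ∑ i, (a i : ℝ) * c :=
      Finset.single_le_sum (f := fun i => (a i : ℝ) * c) (fun _ _ => by positivity) (Finset.mem_univ i)
    have h3 : (1 : ℝ) ≤ a i := by
      have : 1 ≤ a i := Nat.one_le_iff_ne_zero.mpr hi
      exact_mod_cast this
    nlinarith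
  · intro h0
    rw [MvPolynomial.notMem_support_iff.mp h0, zero_mul]

/-- all constants -/
theorem consts {Q : S.VV M} (lf : Leaf S Q E) (ha : Aff lf) {l : Lab S} {La : Fin M → ℝ} (f : Frm Q l La) {c e : ℝ}
    (hc : 0 < c) (he : 0 < e) (hce : c + e ≤ 1) (hLa : ∀ j, La j = c) (tQ : (l.ovr e he).VV M)
    (ht : ∃ K : ℕ → ℝ, S.Sub K ∧ ∀ᶠ k in UF, ∀ ω : (l.sp.F k).Ω, (l.sp.F k).μ ω ≠ 0 → ∀ j,
      |tQ.v k ω j - f.X.v k ω j| ≤ K k * S.dl e k) :
    ∃ K : ℕ → ℝ, S.Sub K ∧ ∀ᶠ k in UF, 0 ≤ K k ∧ ∀ ω : (l k).T.Ω, (l k).T.μ ω ≠ 0 →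
      Vl (S.dl c k) (S.dl (c + e) k) (K k) (fun i => (f.P k ω i).coeff 0) (lf.F k ((l k).p.π ω) 0)
        (sl lf k ((l k).p.π ω)) (tQ.v k ω) (Q.v k ((l k).p.π ω)) (lf.Y.v k ((l k).p.π ω)) ∧
      ∀ i q, |sl lf k ((l k).p.π ω) i q| ≤ K k := by
  obtain ⟨K1, hK1, h1⟩ := lf.pt
  obtain ⟨K2, hK2, h2⟩ := sl_bd ha
  obtain ⟨K3, hK3, h3⟩ := f.pt
  obtain ⟨K4, hK4, h4⟩ := ht
  refine ⟨fun k => (K1 k + K2 k) + (K3 k + K4 k), (hK1.add hK2).add (hK3.add hK4), ?_⟩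
  filter_upwards [h1, h2, h3, h4, hK1.1, hK2.1, hK3.1, hK4.1, ha] with k a1 a2 a3 a4 b1 b2 b3 b4 a5
  refine ⟨by linarith, fun ω hω => ?_⟩
  have hs : (S.F k).μ ((l k).p.π ω) ≠ 0 := (l k).p.supp ω hω
  have hD := S.dl_pos c k
  have hd : 0 < S.dl (c + e) k := S.dl_pos _ k
  have hd1 : S.dl 1 k ≤ S.dl (c + e) k := S.dl_anti hce k
  have hde : S.dl (c + e) k = S.dl c k * S.dl e k := S.dl_add c e k
  refine ⟨⟨fun i => ?_, fun i => ?_⟩, fun i q => (a2 _ hs i q).trans (by linarith)⟩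
  · have c1 := a3 ω hω i
    have c2 := a4 ω hω i
    have c3 : MvPolynomial.eval (fun i => S.dl (La i) k * f.X.v k ω i) (f.P k ω i) = (f.P k ω i).coeff 0 := by
      apply eval_const _ hc
      intro a ha h0
      have := f.red k ω i a ha h0
      simp only [hLa] at this
      exact this
    rw [c3, hLa i] at c1
    have c4 : |Q.v k ((l k).p.π ω) i - ((f.P k ω i).coeff 0 + S.dl c k * f.X.v k ω i)| ≤ K3 k * S.dl 1 k := c1
    have e1 : S.dl c k * tQ.v k ω i - (Q.v k ((l k).p.π ω) i - (f.P k ω i).coeff 0) =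
        S.dl c k * (tQ.v k ω i - f.X.v k ω i) +
        -(Q.v k ((l k).p.π ω) i - ((f.P k ω i).coeff 0 + S.dl c k * f.X.v k ω i)) := by ring
    rw [e1]
    refine (abs_add_le _ _).trans ?_
    rw [abs_neg, abs_mul, abs_of_pos hD]
    have c5 : S.dl c k * |tQ.v k ω i - f.X.v k ω i| ≤ K4 k * S.dl (c + e) k := by
      rw [hde]
      have := mul_le_mul_of_nonneg_left c2 hD.le
      linarith
    have c6 : K3 k * S.dl 1 k ≤ K3 k * S.dl (c + e) k := mul_le_mul_of_nonneg_left hd1 b3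
    have c7 : (K3 k + K4 k) * S.dl (c + e) k ≤ 2 * (K1 k + K2 k + (K3 k + K4 k)) * S.dl (c + e) k :=
      mul_le_mul_of_nonneg_right (by linarith) hd.le
    linarith
  · have c1 := a1 _ hs i
    rw [a5 _ hs] at c1
    refine c1.trans ?_
    exact mul_le_mul (by linarith) hd1 (S.dl_pos 1 k).le (by linarith)

theorem ovr_dl (l : Lab S) (e : ℝ) (he : 0 < e) (k : ℕ) : dlF ((l.ovr e he).F k) 1 = S.dl e k := by
  have h1 : ((l.ovr e he).F k).n = e * (S.F k).n := l.n_over e he k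
  unfold dlF
  rw [h1, one_mul]
  rfl

end

end Pool.Agent.Helper67.SAT
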